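import Mathlib

/-!
# Local L2 bound for Fourier integrals over a set
-/

namespace Pool.Agent.R681.BM

open MeasureTheory Real
open scoped ENNReal InnerProductSpace

variable {n : ℕ}

/-- the character `exp(2πi x·ξ)` -/
noncomputable def ee (x ξ : EuclideanSpace ℝ (Fin n)) : ℂ :=
  Complex.exp (2 * π * Complex.I * ((⟪x, ξ⟫_ℝ : ℝ) : ℂ))

lemma norm_ee (x ξ : EuclideanSpace ℝ (Fin n)) : ‖ee x ξ‖ = 1 := by
  unfold ee
  have : (2 * π * Complex.I * ((⟪x, ξ⟫_ℝ : ℝ) : ℂ)) = ((2 * π * ⟪x, ξ⟫_ℝ : ℝ) : ℂ) * Complex.I := by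
    push_cast; ring
  rw [this, Complex.norm_exp_ofReal_mul_I]

lemma continuous_ee : Continuous (fun p : EuclideanSpace ℝ (Fin n) × EuclideanSpace ℝ (Fin n) =>
    ee p.1 p.2) := by
  unfold ee
  fun_prop

/-- the partial Fourier integral over `E` -/
noncomputable def T (g : EuclideanSpace ℝ (Fin n) → ℂ) (E : Set (EuclideanSpace ℝ (Fin n)))
    (x : EuclideanSpace ℝ (Fin n)) : ℂ := ∫ ξ in E, g ξ * ee x ξ

lemma T_continuous (g : EuclideanSpace ℝ (Fin n) → ℂ) (hgc : Continuous g)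
    (E : Set (EuclideanSpace ℝ (Fin n))) (hg : IntegrableOn g E) : Continuous (T g E) := by
  unfold T
  refine continuous_of_dominated (bound := fun ξ => ‖g ξ‖) ?_ ?_ hg.norm ?_
  · intro x
    have : Continuous (fun ξ => g ξ * ee x ξ) :=
      hgc.mul (continuous_ee.comp (by fun_prop : Continuous (fun ξ => (x, ξ))))
    exact this.aestronglyMeasurable
  · intro x
    refine Filter.Eventually.of_forall fun ξ => ?_
    rw [norm_mul, norm_ee, mul_one]
  · refine Filter.Eventually.of_forall fun ξ => ?_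
    exact continuous_const.mul (continuous_ee.comp (by fun_prop : Continuous (fun x => (x, ξ))))

lemma T_bound (g : EuclideanSpace ℝ (Fin n) → ℂ) (E : Set (EuclideanSpace ℝ (Fin n)))
    (x : EuclideanSpace ℝ (Fin n)) : ‖T g E x‖ ≤ ∫ ξ in E, ‖g ξ‖ := by
  unfold T
  refine (norm_integral_le_integral_norm _).trans (le_of_eq ?_)
  congr 1
  ext ξ
  rw [norm_mul, norm_ee, mul_one]

lemma ee_mul_conj (x ξ η : EuclideanSpace ℝ (Fin n)) :
    ee x ξ * (starRingEnd ℂ) (ee x η) = Complex.exp (2 * π * Complex.I * ((⟪ξ - η, x⟫_ℝ : ℝ) : ℂ)) := by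
  unfold ee
  rw [← Complex.exp_conj, ← Complex.exp_add]
  congr 1
  simp only [map_mul, Complex.conj_ofReal, Complex.conj_I, map_ofNat]
  rw [inner_sub_left, real_inner_comm x ξ, real_inner_comm x η]
  push_cast
  ring

lemma gauss_ft (η : EuclideanSpace ℝ (Fin n)) :
    ∫ x : EuclideanSpace ℝ (Fin n), (rexp (-(π / 2) * ‖x‖ ^ 2) : ℂ) *
      Complex.exp (2 * π * Complex.I * ((⟪η, x⟫_ℝ : ℝ) : ℂ)) =
      (((2:ℝ) ^ ((n:ℝ) / 2) * rexp (-(2 * π) * ‖η‖ ^ 2) : ℝ) : ℂ) := by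
  have hb : 0 < ((π / 2 : ℝ) : ℂ).re := by rw [Complex.ofReal_re]; positivity
  have h := GaussianFourier.integral_cexp_neg_mul_sq_norm_add (V := EuclideanSpace ℝ (Fin n)) hb
    (2 * π * Complex.I) η
  have e1 : ∀ x : EuclideanSpace ℝ (Fin n), (rexp (-(π / 2) * ‖x‖ ^ 2) : ℂ) *
      Complex.exp (2 * π * Complex.I * ((⟪η, x⟫_ℝ : ℝ) : ℂ)) =
      Complex.exp (-((π / 2 : ℝ) : ℂ) * ‖x‖ ^ 2 + 2 * π * Complex.I * ⟪η, x⟫_ℝ) := by
    intro x
    rw [Complex.exp_add]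
    congr 1
    push_cast
    rfl
  simp_rw [e1]
  rw [h]
  have hpi : (π : ℂ) ≠ 0 := by exact_mod_cast Real.pi_ne_zero
  have e2 : (π : ℂ) / ((π / 2 : ℝ) : ℂ) = 2 := by
    push_cast
    field_simp
  rw [e2, finrank_euclideanSpace_fin]
  have e3 : (2 * (π:ℂ) * Complex.I) ^ 2 * ‖η‖ ^ 2 / (4 * ((π / 2 : ℝ) : ℂ)) =
      ((-(2 * π) * ‖η‖ ^ 2 : ℝ) : ℂ) := by
    push_cast
    field_simp
    rw [Complex.I_sq]
    ring
  rw [e3, ← Complex.ofReal_exp]
  rw [Complex.ofReal_mul]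
  congr 1
  rw [Complex.ofReal_cpow (by norm_num)]
  push_cast
  rfl

/-- Schur type bound. -/
lemma local_bound (g : EuclideanSpace ℝ (Fin n) → ℂ) (hgc : Continuous g)
    (E : Set (EuclideanSpace ℝ (Fin n))) (hg : IntegrableOn g E) (κ : ℝ≥0∞)
    (hκ : ∀ᵐ ξ ∂(volume.restrict E), ∫⁻ η in E, ENNReal.ofReal (rexp (-(2 * π) * ‖ξ - η‖ ^ 2)) ≤ κ) :
    ∫⁻ x in Metric.closedBall (0 : EuclideanSpace ℝ (Fin n)) 1, ‖T g E x‖ₑ ^ 2 ≤
      ENNReal.ofReal (rexp (π / 2)) * (ENNReal.ofReal ((2:ℝ) ^ ((n:ℝ) / 2)) *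
        (2 * (κ * ∫⁻ ξ in E, ‖g ξ‖ₑ ^ 2))) := by
  set μE := volume.restrict E with hμE
  set c : ℝ := (2:ℝ) ^ ((n:ℝ) / 2) with hc
  have hc0 : 0 < c := by positivity
  -- the quadratic form
  have hgi : Integrable g μE := hg
  have hTmul : ∀ x, T g E x * (starRingEnd ℂ) (T g E x) =
      ∫ z, (g z.1 * ee x z.1) * (starRingEnd ℂ) (g z.2 * ee x z.2) ∂(μE.prod μE) := by
    intro x
    rw [integral_prod_mul (fun ξ => g ξ * ee x ξ) (fun ξ => (starRingEnd ℂ) (g ξ * ee x ξ))]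
    unfold T
    rw [integral_conj]
  have hgauss : Integrable (fun x : EuclideanSpace ℝ (Fin n) => (rexp (-(π / 2) * ‖x‖ ^ 2) : ℂ)) := by
    have := GaussianFourier.integrable_cexp_neg_mul_sq_norm_add (V := EuclideanSpace ℝ (Fin n))
      (b := ((π / 2 : ℝ) : ℂ)) (by rw [Complex.ofReal_re]; positivity) 0 0
    refine this.congr (Filter.Eventually.of_forall fun x => ?_)
    push_cast
    simp
  have hbase : Integrable (fun p : EuclideanSpace ℝ (Fin n) ×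
      (EuclideanSpace ℝ (Fin n) × EuclideanSpace ℝ (Fin n)) =>
      (rexp (-(π / 2) * ‖p.1‖ ^ 2) : ℂ) * (g p.2.1 * (starRingEnd ℂ) (g p.2.2)))
      (volume.prod (μE.prod μE)) := by
    have hconj : Integrable (fun ξ => (starRingEnd ℂ) (g ξ)) μE :=
      (LinearIsometryEquiv.integrable_comp_iff Complex.conjLIE).2 hgi
    exact hgauss.mul_prod (hgi.mul_prod hconj)
  have hFint : Integrable (fun p : EuclideanSpace ℝ (Fin n) ×
      (EuclideanSpace ℝ (Fin n) × EuclideanSpace ℝ (Fin n)) =>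
      ((rexp (-(π / 2) * ‖p.1‖ ^ 2) : ℂ) * (g p.2.1 * (starRingEnd ℂ) (g p.2.2))) *
        (ee p.1 p.2.1 * (starRingEnd ℂ) (ee p.1 p.2.2)))
      (volume.prod (μE.prod μE)) := by
    refine hbase.mul_bdd (c := 1) ?_ ?_
    · have h1 : Continuous (fun p : EuclideanSpace ℝ (Fin n) ×
        (EuclideanSpace ℝ (Fin n) × EuclideanSpace ℝ (Fin n)) => ee p.1 p.2.1) :=
        continuous_ee.comp (by fun_prop : Continuous (fun p : EuclideanSpace ℝ (Fin n) ×
        (EuclideanSpace ℝ (Fin n) × EuclideanSpace ℝ (Fin n)) => (p.1, p.2.1)))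
      have h2 : Continuous (fun p : EuclideanSpace ℝ (Fin n) ×
        (EuclideanSpace ℝ (Fin n) × EuclideanSpace ℝ (Fin n)) => ee p.1 p.2.2) :=
        continuous_ee.comp (by fun_prop : Continuous (fun p : EuclideanSpace ℝ (Fin n) ×
        (EuclideanSpace ℝ (Fin n) × EuclideanSpace ℝ (Fin n)) => (p.1, p.2.2)))
      exact (h1.mul (Complex.continuous_conj.comp h2)).aestronglyMeasurable
    · refine Filter.Eventually.of_forall fun p => ?_
      rw [norm_mul, RCLike.norm_conj, norm_ee, norm_ee, mul_one]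
  -- the integral I
  have hswap : ∀ F : EuclideanSpace ℝ (Fin n) → EuclideanSpace ℝ (Fin n) × EuclideanSpace ℝ (Fin n) → ℂ,
      Integrable (Function.uncurry F) (volume.prod (μE.prod μE)) →
      ∫ x, ∫ z, F x z ∂(μE.prod μE) = ∫ z, ∫ x, F x z ∂volume ∂(μE.prod μE) := by
    intro F hF
    exact integral_integral_swap hF
  have hI : ∫ x, (rexp (-(π / 2) * ‖x‖ ^ 2) : ℂ) * (T g E x * (starRingEnd ℂ) (T g E x)) =
      ∫ z, (g z.1 * (starRingEnd ℂ) (g z.2)) * ((c * rexp (-(2 * π) * ‖z.1 - z.2‖ ^ 2) : ℝ) : ℂ)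
        ∂(μE.prod μE) := by
    have h1 : ∫ x, (rexp (-(π / 2) * ‖x‖ ^ 2) : ℂ) * (T g E x * (starRingEnd ℂ) (T g E x)) =
        ∫ x, ∫ z, ((rexp (-(π / 2) * ‖x‖ ^ 2) : ℂ) * (g z.1 * (starRingEnd ℂ) (g z.2))) *
          (ee x z.1 * (starRingEnd ℂ) (ee x z.2)) ∂(μE.prod μE) := by
      refine integral_congr_ae (Filter.Eventually.of_forall fun x => ?_)
      simp only
      rw [hTmul x, ← integral_const_mul]
      refine integral_congr_ae (Filter.Eventually.of_forall fun z => ?_)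
      simp only
      rw [map_mul]
      ring
    have h2 := hswap (fun x z => ((rexp (-(π / 2) * ‖x‖ ^ 2) : ℂ) *
      (g z.1 * (starRingEnd ℂ) (g z.2))) * (ee x z.1 * (starRingEnd ℂ) (ee x z.2))) hFint
    rw [h1, h2]
    refine integral_congr_ae (Filter.Eventually.of_forall fun z => ?_)
    simp only
    rw [hc, ← gauss_ft, ← integral_const_mul]
    refine integral_congr_ae (Filter.Eventually.of_forall fun x => ?_)
    simp only
    rw [ee_mul_conj]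
    ring
  -- (a)
  set w : EuclideanSpace ℝ (Fin n) → ℝ := fun x => rexp (-(π / 2) * ‖x‖ ^ 2) with hw
  have hwint : Integrable w := by
    have := hgauss.norm
    refine this.congr (Filter.Eventually.of_forall fun x => ?_)
    simp only [hw]
    rw [Complex.norm_real, Real.norm_of_nonneg (Real.exp_nonneg _)]
  have hTc := T_continuous g hgc E hg
  have hWT : Integrable (fun x => w x * ‖T g E x‖ ^ 2) := by
    refine hwint.mul_bdd (c := (∫ ξ in E, ‖g ξ‖) ^ 2) ?_ ?_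
    · exact (hTc.norm.pow 2).aestronglyMeasurable
    · refine Filter.Eventually.of_forall fun x => ?_
      rw [Real.norm_of_nonneg (by positivity)]
      exact pow_le_pow_left₀ (norm_nonneg _) (T_bound g E x) 2
  have hIeq : ∫ x, (rexp (-(π / 2) * ‖x‖ ^ 2) : ℂ) * (T g E x * (starRingEnd ℂ) (T g E x)) =
      ((∫ x, w x * ‖T g E x‖ ^ 2 : ℝ) : ℂ) := by
    rw [← integral_complex_ofReal]
    refine integral_congr_ae (Filter.Eventually.of_forall fun x => ?_)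
    simp only [hw]
    rw [Complex.mul_conj, Complex.normSq_eq_norm_sq]
    push_cast
    ring
  have ha : ∫⁻ x in Metric.closedBall (0 : EuclideanSpace ℝ (Fin n)) 1, ‖T g E x‖ₑ ^ 2 ≤
      ENNReal.ofReal (rexp (π / 2)) * ∫⁻ x, ENNReal.ofReal (w x * ‖T g E x‖ ^ 2) := by
    rw [← lintegral_const_mul' _ _ ENNReal.ofReal_ne_top]
    refine (setLIntegral_mono' measurableSet_closedBall (fun x hx => ?_)).trans
      (setLIntegral_le_lintegral _ _)
    rw [← ENNReal.ofReal_mul (Real.exp_nonneg _), ← ofReal_norm_eq_enorm,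
      ← ENNReal.ofReal_pow (norm_nonneg _)]
    apply ENNReal.ofReal_le_ofReal
    have hx1 : ‖x‖ ≤ 1 := by simpa using hx
    have h1 : 1 ≤ rexp (π / 2) * w x := by
      simp only [hw]
      rw [← Real.exp_add]
      apply Real.one_le_exp
      have : ‖x‖ ^ 2 ≤ 1 := by nlinarith [norm_nonneg x]
      nlinarith [Real.pi_pos]
    calc ‖T g E x‖ ^ 2 = 1 * ‖T g E x‖ ^ 2 := (one_mul _).symm
      _ ≤ (rexp (π / 2) * w x) * ‖T g E x‖ ^ 2 := by gcongr
      _ = _ := by ring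
  have hb : ∫⁻ x, ENNReal.ofReal (w x * ‖T g E x‖ ^ 2) = ‖∫ z, (g z.1 * (starRingEnd ℂ) (g z.2)) *
      ((c * rexp (-(2 * π) * ‖z.1 - z.2‖ ^ 2) : ℝ) : ℂ) ∂(μE.prod μE)‖ₑ := by
    have hnn : ∀ x, 0 ≤ w x * ‖T g E x‖ ^ 2 := fun x => by simp only [hw]; positivity
    rw [← ofReal_integral_eq_lintegral_ofReal hWT (Filter.Eventually.of_forall hnn),
      ← hI, hIeq, ← ofReal_norm_eq_enorm, Complex.norm_real,
      Real.norm_of_nonneg (integral_nonneg hnn)]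
  have hd : ‖∫ z, (g z.1 * (starRingEnd ℂ) (g z.2)) *
      ((c * rexp (-(2 * π) * ‖z.1 - z.2‖ ^ 2) : ℝ) : ℂ) ∂(μE.prod μE)‖ₑ ≤
      ENNReal.ofReal c * (2 * (κ * ∫⁻ ξ in E, ‖g ξ‖ₑ ^ 2)) := by
    refine (enorm_integral_le_lintegral_enorm _).trans ?_
    set k : EuclideanSpace ℝ (Fin n) → EuclideanSpace ℝ (Fin n) → ℝ≥0∞ :=
      fun a b => ENNReal.ofReal (rexp (-(2 * π) * ‖a - b‖ ^ 2)) with hk
    have hkm : Measurable (fun z : EuclideanSpace ℝ (Fin n) × EuclideanSpace ℝ (Fin n) => k z.1 z.2) := by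
      simp only [hk]
      fun_prop
    have hpt : ∀ z : EuclideanSpace ℝ (Fin n) × EuclideanSpace ℝ (Fin n),
        ‖(g z.1 * (starRingEnd ℂ) (g z.2)) *
          ((c * rexp (-(2 * π) * ‖z.1 - z.2‖ ^ 2) : ℝ) : ℂ)‖ₑ ≤
        ENNReal.ofReal c * (‖g z.1‖ₑ ^ 2 * k z.1 z.2 + ‖g z.2‖ₑ ^ 2 * k z.1 z.2) := by
      intro z
      have e1 : ‖(g z.1 * (starRingEnd ℂ) (g z.2)) *
          ((c * rexp (-(2 * π) * ‖z.1 - z.2‖ ^ 2) : ℝ) : ℂ)‖ₑ =
          ENNReal.ofReal c * ((‖g z.1‖ₑ * ‖g z.2‖ₑ) * k z.1 z.2) := by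
        rw [enorm_mul, enorm_mul]
        have e2 : ‖(starRingEnd ℂ) (g z.2)‖ₑ = ‖g z.2‖ₑ := by
          rw [← ofReal_norm_eq_enorm, ← ofReal_norm_eq_enorm, RCLike.norm_conj]
        have e3 : ‖((c * rexp (-(2 * π) * ‖z.1 - z.2‖ ^ 2) : ℝ) : ℂ)‖ₑ =
            ENNReal.ofReal c * k z.1 z.2 := by
          rw [← ofReal_norm_eq_enorm, Complex.norm_real, Real.norm_of_nonneg (by positivity),
            ENNReal.ofReal_mul hc0.le]
        rw [e2, e3]
        ring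
      rw [e1, ← add_mul]
      gcongr
      rcases le_total ‖g z.1‖ₑ ‖g z.2‖ₑ with h | h
      · calc ‖g z.1‖ₑ * ‖g z.2‖ₑ ≤ ‖g z.2‖ₑ * ‖g z.2‖ₑ := by gcongr
          _ = ‖g z.2‖ₑ ^ 2 := (sq _).symm
          _ ≤ _ := le_add_self
      · calc ‖g z.1‖ₑ * ‖g z.2‖ₑ ≤ ‖g z.1‖ₑ * ‖g z.1‖ₑ := by gcongr
          _ = ‖g z.1‖ₑ ^ 2 := (sq _).symm
          _ ≤ _ := le_self_add
    refine (lintegral_mono hpt).trans ?_
    rw [lintegral_const_mul' _ _ ENNReal.ofReal_ne_top]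
    gcongr
    have hgm : Measurable (fun ξ => ‖g ξ‖ₑ ^ 2) := (hgc.measurable.enorm).pow_const 2
    have hm1 : Measurable (fun z : EuclideanSpace ℝ (Fin n) × EuclideanSpace ℝ (Fin n) =>
        ‖g z.1‖ₑ ^ 2 * k z.1 z.2) := (hgm.comp measurable_fst).mul hkm
    have hm2 : Measurable (fun z : EuclideanSpace ℝ (Fin n) × EuclideanSpace ℝ (Fin n) =>
        ‖g z.2‖ₑ ^ 2 * k z.1 z.2) := (hgm.comp measurable_snd).mul hkm
    rw [lintegral_add_left hm1, lintegral_prod _ hm1.aemeasurable,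
      lintegral_prod_symm _ hm2.aemeasurable, two_mul]
    have hkey : ∫⁻ x, ∫⁻ y, ‖g x‖ₑ ^ 2 * k x y ∂μE ∂μE ≤ κ * ∫⁻ ξ in E, ‖g ξ‖ₑ ^ 2 := by
      have hkm' : ∀ x, Measurable (k x) := fun x => by simp only [hk]; fun_prop
      calc ∫⁻ x, ∫⁻ y, ‖g x‖ₑ ^ 2 * k x y ∂μE ∂μE = ∫⁻ x, ‖g x‖ₑ ^ 2 * ∫⁻ y, k x y ∂μE ∂μE := by
            refine lintegral_congr fun x => ?_
            rw [lintegral_const_mul _ (hkm' x)]
        _ ≤ ∫⁻ x, ‖g x‖ₑ ^ 2 * κ ∂μE := by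
            refine lintegral_mono_ae ?_
            filter_upwards [hκ] with x hx
            gcongr
        _ = κ * ∫⁻ ξ in E, ‖g ξ‖ₑ ^ 2 := by
            rw [lintegral_mul_const _ hgm, mul_comm]
    refine add_le_add hkey ?_
    refine le_trans (le_of_eq ?_) hkey
    refine lintegral_congr fun y => lintegral_congr fun x => ?_
    simp only [hk]
    rw [norm_sub_rev]
  calc _ ≤ _ := ha
    _ ≤ _ := by
      rw [hb]
      gcongr

end Pool.Agent.R681.BM
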