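import Mathlib

/-!
# A maximal inequality for random signs
-/

namespace Pool.Agent.R681.BM

open Finset

/-- the sign of the index `l` for the sign pattern `A` (`A` = set of indices with sign `-1`) -/
noncomputable def sg (A : Finset ℕ) (l : ℕ) : ℂ := if l ∈ A then -1 else 1

lemma norm_sg (A : Finset ℕ) (l : ℕ) : ‖sg A l‖ = 1 := by
  unfold sg; split_ifs <;> simp

/-- signed partial sums -/
noncomputable def SS (a : ℕ → ℂ) (A : Finset ℕ) (k : ℕ) : ℂ := ∑ l ∈ range k, sg A l * a l

/-- running maximum of the signed partial sums -/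
noncomputable def MM (a : ℕ → ℂ) (A : Finset ℕ) : ℕ → ℝ
  | 0 => 0
  | (k+1) => max (MM a A k) ‖SS a A (k+1)‖

lemma MM_nonneg (a : ℕ → ℂ) (A : Finset ℕ) (k : ℕ) : 0 ≤ MM a A k := by
  induction k with
  | zero => simp [MM]
  | succ k ih => exact le_max_of_le_left ih

lemma norm_le_MM (a : ℕ → ℂ) (A : Finset ℕ) (k : ℕ) : ‖SS a A k‖ ≤ MM a A k := by
  cases k with
  | zero => simp [MM, SS]
  | succ k => exact le_max_right _ _

lemma MM_mono (a : ℕ → ℂ) (A : Finset ℕ) {j k : ℕ} (h : j ≤ k) : MM a A j ≤ MM a A k := by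
  induction k with
  | zero => simp_all
  | succ k ih =>
    rcases Nat.lt_or_ge j (k+1) with h1 | h1
    · exact (ih (by omega)).trans (le_max_left _ _)
    · have : j = k + 1 := by omega
      rw [this]

lemma sg_insert {A : Finset ℕ} {k l : ℕ} (h : l ≠ k) : sg (insert k A) l = sg A l := by
  unfold sg; simp [h]

lemma SS_insert (a : ℕ → ℂ) (A : Finset ℕ) (k j : ℕ) (h : j ≤ k) :
    SS a (insert k A) j = SS a A j := by
  unfold SS
  refine Finset.sum_congr rfl fun l hl => ?_
  rw [sg_insert]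
  have := Finset.mem_range.1 hl
  omega

lemma MM_insert (a : ℕ → ℂ) (A : Finset ℕ) (k j : ℕ) (h : j ≤ k) :
    MM a (insert k A) j = MM a A j := by
  induction j with
  | zero => simp [MM]
  | succ j ih => simp only [MM]; rw [ih (by omega), SS_insert a A k (j+1) h]

/-- potential -/
noncomputable def YY (a : ℕ → ℂ) (A : Finset ℕ) (k : ℕ) : ℝ :=
  4 * MM a A k * ‖SS a A k‖ - 2 * MM a A k ^ 2

lemma YY_step (a : ℕ → ℂ) (A : Finset ℕ) (k : ℕ) :
    YY a A k + 4 * MM a A k * (‖SS a A (k+1)‖ - ‖SS a A k‖) ≤ YY a A (k+1) := by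
  unfold YY
  simp only [MM]
  rcases le_total (MM a A k) ‖SS a A (k+1)‖ with h | h
  · rw [max_eq_right h]
    nlinarith [sq_nonneg (‖SS a A (k+1)‖ - MM a A k)]
  · rw [max_eq_left h]
    nlinarith

lemma SS_succ_not (a : ℕ → ℂ) (A : Finset ℕ) (k : ℕ) (h : k ∉ A) :
    SS a A (k+1) = SS a A k + a k := by
  unfold SS
  rw [Finset.sum_range_succ]
  simp [sg, h]

lemma SS_succ_ins (a : ℕ → ℂ) (A : Finset ℕ) (k : ℕ) :
    SS a (insert k A) (k+1) = SS a A k - a k := by
  have : SS a (insert k A) (k+1) = SS a (insert k A) k + sg (insert k A) k * a k := by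
    unfold SS; rw [Finset.sum_range_succ]
  rw [this, SS_insert a A k k le_rfl]
  simp [sg]
  ring

lemma YY_sum (a : ℕ → ℂ) (N : ℕ) : 0 ≤ ∑ A ∈ (range N).powerset, YY a A N := by
  induction N with
  | zero => simp [YY, MM, SS]
  | succ N ih =>
    rw [Finset.range_add_one, Finset.sum_powerset_insert (by simp)]
    rw [← Finset.sum_add_distrib]
    have h2 : 2 * ∑ A ∈ (range N).powerset, YY a A N ≤
        ∑ A ∈ (range N).powerset, (YY a A (N+1) + YY a (insert N A) (N+1)) := by
      rw [Finset.mul_sum]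
      refine Finset.sum_le_sum fun A hA => ?_
      have hN : N ∉ A := fun h => by simpa using Finset.mem_powerset.1 hA h
      have h1 := YY_step a A N
      have h2 := YY_step a (insert N A) N
      have e1 : YY a (insert N A) N = YY a A N := by
        unfold YY; rw [MM_insert a A N N le_rfl, SS_insert a A N N le_rfl]
      rw [e1, MM_insert a A N N le_rfl, SS_insert a A N N le_rfl, SS_succ_ins] at h2
      rw [SS_succ_not a A N hN] at h1
      have h3 : 2 * ‖SS a A N‖ ≤ ‖SS a A N + a N‖ + ‖SS a A N - a N‖ := by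
        calc 2 * ‖SS a A N‖ = ‖(SS a A N + a N) + (SS a A N - a N)‖ := by
              rw [show (SS a A N + a N) + (SS a A N - a N) = 2 * SS a A N by ring, norm_mul]
              simp
          _ ≤ _ := norm_add_le _ _
      have h4 := MM_nonneg a A N
      nlinarith
    linarith

lemma sq_sum (a : ℕ → ℂ) (N : ℕ) :
    ∑ A ∈ (range N).powerset, ‖SS a A N‖ ^ 2 = 2 ^ N * ∑ l ∈ range N, ‖a l‖ ^ 2 := by
  induction N with
  | zero => simp [SS]
  | succ N ih =>
    rw [Finset.range_add_one, Finset.sum_powerset_insert (by simp)]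
    rw [← Finset.sum_add_distrib]
    have : ∀ A ∈ (range N).powerset, ‖SS a A (N+1)‖ ^ 2 + ‖SS a (insert N A) (N+1)‖ ^ 2 =
        2 * ‖SS a A N‖ ^ 2 + 2 * ‖a N‖ ^ 2 := by
      intro A hA
      have hN : N ∉ A := fun h => by simpa using Finset.mem_powerset.1 hA h
      rw [SS_succ_ins, SS_succ_not a A N hN]
      have := parallelogram_law_with_norm ℂ (SS a A N) (a N)
      nlinarith
    rw [Finset.sum_congr rfl this, Finset.sum_add_distrib, ← Finset.mul_sum, ih,
      Finset.sum_const, Finset.card_powerset, card_range, Finset.sum_insert (by simp)]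
    simp only [nsmul_eq_mul]
    push_cast
    ring

/-- **maximal inequality for random signs** -/
lemma max_sum (a : ℕ → ℂ) (N : ℕ) :
    ∑ A ∈ (range N).powerset, MM a A N ^ 2 ≤ 4 * (2 ^ N * ∑ l ∈ range N, ‖a l‖ ^ 2) := by
  rw [← sq_sum, Finset.mul_sum]
  have h := YY_sum a N
  have : ∑ A ∈ (range N).powerset, MM a A N ^ 2 ≤
      ∑ A ∈ (range N).powerset, (4 * ‖SS a A N‖ ^ 2 - YY a A N) := by
    refine Finset.sum_le_sum fun A _ => ?_
    unfold YY
    nlinarith [sq_nonneg (2 * ‖SS a A N‖ - MM a A N)]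
  rw [Finset.sum_sub_distrib] at this
  linarith

end Pool.Agent.R681.BM
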