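import Pool.Agent.R681.BM.A

/-!
# Thin spherical shells and the Gaussian kernel
-/

namespace Pool.Agent.R681.BM

open MeasureTheory Real
open scoped ENNReal InnerProductSpace Pointwise

variable {n : ℕ}

/-- the half-open spherical shell -/
def Sh (n : ℕ) (a b : ℝ) : Set (EuclideanSpace ℝ (Fin n)) := {ξ | a < ‖ξ‖ ∧ ‖ξ‖ ≤ b}

lemma measurableSet_Sh (a b : ℝ) : MeasurableSet (Sh n a b) := by
  unfold Sh
  exact (measurableSet_lt measurable_const measurable_norm).inter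
    (measurableSet_le measurable_norm measurable_const)

lemma Sh_union {a b c : ℝ} (hab : a ≤ b) (hbc : b ≤ c) : Sh n a b ∪ Sh n b c = Sh n a c := by
  ext ξ
  simp only [Sh, Set.mem_union, Set.mem_setOf_eq]
  constructor
  · rintro (⟨h1, h2⟩ | ⟨h1, h2⟩)
    · exact ⟨h1, h2.trans hbc⟩
    · exact ⟨hab.trans_lt h1, h2⟩
  · rintro ⟨h1, h2⟩
    rcases le_or_gt ‖ξ‖ b with h | h
    · exact Or.inl ⟨h1, h⟩
    · exact Or.inr ⟨h, h2⟩

lemma Sh_disj {a b c : ℝ} : Disjoint (Sh n a b) (Sh n b c) := by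
  rw [Set.disjoint_left]
  rintro ξ ⟨_, h1⟩ ⟨h2, _⟩
  linarith

lemma Sh_self (a : ℝ) : Sh n a a = ∅ := by
  ext ξ
  simp only [Sh, Set.mem_setOf_eq, Set.mem_empty_iff_false, iff_false, not_and, not_le]
  exact fun h => h

lemma smul_Sh {t : ℝ} (ht : 0 < t) (a b : ℝ) : t • Sh n a b = Sh n (t * a) (t * b) := by
  ext ξ
  rw [Set.mem_smul_set_iff_inv_smul_mem₀ ht.ne']
  simp only [Sh, Set.mem_setOf_eq, norm_smul, norm_inv, Real.norm_of_nonneg ht.le]
  rw [inv_mul_eq_div, lt_div_iff₀ ht, div_le_iff₀ ht, mul_comm a, mul_comm b]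

lemma tele_lint (φ : EuclideanSpace ℝ (Fin n) → ℝ≥0∞) (r : ℕ → ℝ) (hr : Monotone r) (J : ℕ) :
    ∑ j ∈ Finset.range J, ∫⁻ ξ in Sh n (r j) (r (j+1)), φ ξ = ∫⁻ ξ in Sh n (r 0) (r J), φ ξ := by
  induction J with
  | zero => simp [Sh_self]
  | succ J ih =>
    rw [Finset.sum_range_succ, ih, ← lintegral_union (measurableSet_Sh _ _) Sh_disj,
      Sh_union (hr (Nat.zero_le J)) (hr (Nat.le_succ J))]

lemma tele_int {F : Type*} [NormedAddCommGroup F] [NormedSpace ℝ F]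
    (φ : EuclideanSpace ℝ (Fin n) → F) (hφ : Integrable φ) (r : ℕ → ℝ)
    (hr : Monotone r) (J : ℕ) :
    ∑ j ∈ Finset.range J, ∫ ξ in Sh n (r j) (r (j+1)), φ ξ = ∫ ξ in Sh n (r 0) (r J), φ ξ := by
  induction J with
  | zero => simp [Sh_self]
  | succ J ih =>
    rw [Finset.sum_range_succ, ih, ← setIntegral_union Sh_disj (measurableSet_Sh _ _)
      hφ.integrableOn hφ.integrableOn, Sh_union (hr (Nat.zero_le J)) (hr (Nat.le_succ J))]

lemma gauss_int {b : ℝ} (hb : 0 < b) (ξ : EuclideanSpace ℝ (Fin n)) :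
    Integrable (fun η : EuclideanSpace ℝ (Fin n) => rexp (-b * ‖ξ - η‖ ^ 2)) := by
  have h : Integrable (fun η : EuclideanSpace ℝ (Fin n) => rexp (-b * ‖η‖ ^ 2)) := by
    have := (GaussianFourier.integrable_cexp_neg_mul_sq_norm_add (V := EuclideanSpace ℝ (Fin n))
      (b := (b : ℂ)) (by rw [Complex.ofReal_re]; exact hb) 0 0).norm
    refine this.congr (Filter.Eventually.of_forall fun x => ?_)
    simp only [zero_mul, add_zero]
    have : (-(b:ℂ) * (‖x‖:ℂ) ^ 2) = ((-b * ‖x‖ ^ 2 : ℝ) : ℂ) := by push_cast; ring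
    rw [this, ← Complex.ofReal_exp, Complex.norm_real, Real.norm_of_nonneg (Real.exp_nonneg _)]
  exact h.comp_sub_left ξ

lemma gauss_total (ξ : EuclideanSpace ℝ (Fin n)) :
    ∫ η : EuclideanSpace ℝ (Fin n), rexp (-π * ‖ξ - η‖ ^ 2) = 1 := by
  rw [integral_sub_left_eq_self (fun η : EuclideanSpace ℝ (Fin n) => rexp (-π * ‖η‖ ^ 2)),
    GaussianFourier.integral_rexp_neg_mul_sq_norm Real.pi_pos, div_self Real.pi_ne_zero,
    Real.one_rpow]

/-- the Gaussian mass of a thin shell away from the origin -/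
lemma thin_shell (a : ℝ) (ha : 1 ≤ a) (m : ℕ) (hm : 1 ≤ m) (ξ : EuclideanSpace ℝ (Fin n)) :
    ∫ η in Sh n a (a + 1 / m), rexp (-(2 * π) * ‖ξ - η‖ ^ 2) ≤ rexp (32 * π) / m := by
  have hm0 : (0:ℝ) < m := by exact_mod_cast hm
  have ha0 : 0 < a := by linarith
  set lam : ℝ := 1 + 1 / (m * a) with hlam
  have hlam1 : 1 ≤ lam := by
    have : 0 < 1 / ((m:ℝ) * a) := by positivity
    linarith
  have hlam0 : 0 < lam := by linarith
  have hb : a + 1 / m = lam * a := by rw [hlam]; field_simp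
  have hr : Monotone (fun j : ℕ => lam ^ j * a) := by
    intro i j hij
    have := pow_le_pow_right₀ hlam1 hij
    exact mul_le_mul_of_nonneg_right this ha0.le
  have htele := tele_int (fun η : EuclideanSpace ℝ (Fin n) => rexp (-π * ‖ξ - η‖ ^ 2))
    (gauss_int Real.pi_pos ξ) (fun j : ℕ => lam ^ j * a) hr m
  have htot : ∫ η in Sh n ((fun j : ℕ => lam ^ j * a) 0) ((fun j : ℕ => lam ^ j * a) m),
      rexp (-π * ‖ξ - η‖ ^ 2) ≤ 1 := by
    rw [← gauss_total ξ]
    exact setIntegral_le_integral (gauss_int Real.pi_pos ξ)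
      (Filter.Eventually.of_forall fun η => Real.exp_nonneg _)
  rw [← htele] at htot
  -- each piece
  have hlamm : (lam ^ m - 1) * (lam * a) ≤ 4 := by
    have h1 : lam ^ m ≤ rexp (1 / a) := by
      have : lam ≤ rexp (1 / (m * a)) := by
        rw [hlam]; linarith [Real.add_one_le_exp (1 / ((m:ℝ) * a))]
      calc lam ^ m ≤ rexp (1 / (m * a)) ^ m := pow_le_pow_left₀ hlam0.le this m
        _ = rexp (1 / a) := by
          rw [← Real.exp_nat_mul]; congr 1; field_simp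
    have ha1 : 1 / a ≤ 1 := by rw [div_le_one ha0]; exact ha
    have h2 : rexp (1 / a) - 1 ≤ 2 * (1 / a) := by
      have := Real.abs_exp_sub_one_le (x := 1 / a) (by rw [abs_of_pos (by positivity)]; exact ha1)
      rw [abs_of_pos (show 0 < 1 / a by positivity)] at this
      exact (le_abs_self _).trans this
    have h3 : lam * a ≤ 2 * a := by
      rw [← hb]
      have : 1 / (m:ℝ) ≤ 1 := by rw [div_le_one hm0]; exact_mod_cast hm
      linarith
    calc (lam ^ m - 1) * (lam * a) ≤ (2 * (1 / a)) * (2 * a) := by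
          apply mul_le_mul (by linarith) h3 (by positivity) (by positivity)
      _ = 4 := by field_simp; norm_num
  have hpiece : ∀ j ∈ Finset.range m, rexp (-(32 * π)) *
      ∫ η in Sh n a (a + 1 / m), rexp (-(2 * π) * ‖ξ - η‖ ^ 2) ≤
      ∫ η in Sh n ((fun j : ℕ => lam ^ j * a) j) ((fun j : ℕ => lam ^ j * a) (j+1)),
        rexp (-π * ‖ξ - η‖ ^ 2) := by
    intro j hj
    have hjm : j < m := Finset.mem_range.1 hj
    have ht : 0 < lam ^ j := by positivity
    have hsc := Measure.setIntegral_comp_smul_of_pos volume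
      (fun η : EuclideanSpace ℝ (Fin n) => rexp (-π * ‖ξ - η‖ ^ 2)) (Sh n a (lam * a)) ht
    rw [smul_Sh ht] at hsc
    have hset : Sh n ((fun j : ℕ => lam ^ j * a) j) ((fun j : ℕ => lam ^ j * a) (j+1)) =
        Sh n (lam ^ j * a) (lam ^ j * (lam * a)) := by
      simp only
      congr 1
      ring
    rw [hset, hb]
    have hge : ∫ η in Sh n a (lam * a), rexp (-π * ‖ξ - (lam ^ j) • η‖ ^ 2) ≤
        ∫ η in Sh n (lam ^ j * a) (lam ^ j * (lam * a)), rexp (-π * ‖ξ - η‖ ^ 2) := by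
      rw [hsc, smul_eq_mul]
      have h1 : (1:ℝ) ≤ (lam ^ j) ^ Module.finrank ℝ (EuclideanSpace ℝ (Fin n)) :=
        one_le_pow₀ (one_le_pow₀ hlam1)
      have h2 : 0 ≤ ∫ η in Sh n (lam ^ j * a) (lam ^ j * (lam * a)), rexp (-π * ‖ξ - η‖ ^ 2) :=
        integral_nonneg fun η => Real.exp_nonneg _
      have h3 : ((lam ^ j) ^ Module.finrank ℝ (EuclideanSpace ℝ (Fin n)))⁻¹ ≤ 1 :=
        inv_le_one_of_one_le₀ h1
      nlinarith
    refine le_trans ?_ hge
    rw [← integral_const_mul]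
    have hint1 : Integrable (fun η : EuclideanSpace ℝ (Fin n) =>
        rexp (-(32 * π)) * rexp (-(2 * π) * ‖ξ - η‖ ^ 2)) :=
      (gauss_int (by positivity) ξ).const_mul _
    have hint2 : Integrable (fun η : EuclideanSpace ℝ (Fin n) =>
        rexp (-π * ‖ξ - (lam ^ j) • η‖ ^ 2)) :=
      (gauss_int Real.pi_pos ξ).comp_smul ht.ne'
    refine setIntegral_mono_on hint1.integrableOn hint2.integrableOn (measurableSet_Sh _ _) ?_
    intro η hη
    rw [← Real.exp_add]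
    apply Real.exp_le_exp.2
    have hd : ‖η - (lam ^ j) • η‖ ≤ 4 := by
      have e1 : η - (lam ^ j) • η = -((lam ^ j - 1) • η) := by rw [sub_smul, one_smul]; abel
      have h5 : 1 ≤ lam ^ j := one_le_pow₀ hlam1
      rw [e1, norm_neg, norm_smul, Real.norm_of_nonneg (by linarith)]
      have h6 : lam ^ j ≤ lam ^ m := pow_le_pow_right₀ hlam1 hjm.le
      calc (lam ^ j - 1) * ‖η‖ ≤ (lam ^ m - 1) * (lam * a) := by
            apply mul_le_mul (by linarith) hη.2 (norm_nonneg _) (by linarith)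
        _ ≤ 4 := hlamm
    have htri : ‖ξ - (lam ^ j) • η‖ ≤ ‖ξ - η‖ + ‖η - (lam ^ j) • η‖ := by
      have : ξ - (lam ^ j) • η = (ξ - η) + (η - (lam ^ j) • η) := by abel
      rw [this]; exact norm_add_le _ _
    have hsq : ‖ξ - (lam ^ j) • η‖ ^ 2 ≤ 2 * ‖ξ - η‖ ^ 2 + 32 := by
      have h7 := norm_nonneg (ξ - (lam ^ j) • η)
      have h8 := norm_nonneg (ξ - η)
      have h9 := norm_nonneg (η - (lam ^ j) • η)
      nlinarith [sq_nonneg (‖ξ - η‖ - ‖η - (lam ^ j) • η‖)]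
    nlinarith [Real.pi_pos]
  have hsum := Finset.sum_le_sum hpiece
  rw [Finset.sum_const, Finset.card_range, nsmul_eq_mul] at hsum
  have hfin : (m:ℝ) * (rexp (-(32 * π)) *
      ∫ η in Sh n a (a + 1 / m), rexp (-(2 * π) * ‖ξ - η‖ ^ 2)) ≤ 1 := hsum.trans htot
  rw [le_div_iff₀ hm0]
  have he : rexp (-(32 * π)) * rexp (32 * π) = 1 := by rw [← Real.exp_add]; simp
  have hpos := Real.exp_pos (32 * π)
  calc (∫ η in Sh n a (a + 1 / m), rexp (-(2 * π) * ‖ξ - η‖ ^ 2)) * m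
      = ((m:ℝ) * (rexp (-(32 * π)) *
        ∫ η in Sh n a (a + 1 / m), rexp (-(2 * π) * ‖ξ - η‖ ^ 2))) * rexp (32 * π) := by
        rw [show (m:ℝ) * (rexp (-(32 * π)) * (∫ η in Sh n a (a + 1 / m),
          rexp (-(2 * π) * ‖ξ - η‖ ^ 2))) * rexp (32 * π) = (rexp (-(32 * π)) * rexp (32 * π)) *
          ((∫ η in Sh n a (a + 1 / m), rexp (-(2 * π) * ‖ξ - η‖ ^ 2)) * m) by ring, he, one_mul]
    _ ≤ 1 * rexp (32 * π) := by gcongr
    _ = _ := one_mul _

end Pool.Agent.R681.BM
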