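import Pool.Agent.R681.BM.C
import Pool.Agent.R681.BM.B

/-!
# The maximal function inside one shell
-/

namespace Pool.Agent.R681.BM

open MeasureTheory Real Filter
open scoped ENNReal InnerProductSpace Pointwise Topology

variable {n : ℕ}

lemma pow_sub_le (n : ℕ) {a b : ℝ} (ha : 0 ≤ a) (hab : a ≤ b) (hb : b ≤ 1) :
    b ^ n - a ^ n ≤ n * (b - a) := by
  induction n with
  | zero => simp
  | succ n ih =>
    have h1 : a ^ n ≤ 1 := pow_le_one₀ ha (hab.trans hb)
    have h2 : 0 ≤ b ^ n - a ^ n := sub_nonneg.2 (pow_le_pow_left₀ ha hab n)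
    have h3 : 0 ≤ a ^ n := pow_nonneg ha n
    push_cast
    have e : b ^ (n+1) - a ^ (n+1) = b * (b ^ n - a ^ n) + a ^ n * (b - a) := by ring
    rw [e]
    nlinarith

/-- the volume of the unit ball -/
noncomputable def V1 (n : ℕ) : ℝ := (volume (Metric.ball (0 : EuclideanSpace ℝ (Fin n)) 1)).toReal

lemma V1_nonneg : 0 ≤ V1 n := ENNReal.toReal_nonneg

lemma small_shell (a : ℝ) (ha : 0 ≤ a) (m : ℕ) (hm : 1 ≤ m) (hb : a + 1 / m ≤ 1)
    (ξ : EuclideanSpace ℝ (Fin n)) :
    ∫ η in Sh n a (a + 1 / m), rexp (-(2 * π) * ‖ξ - η‖ ^ 2) ≤ n * V1 n / m := by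
  have hm0 : (0:ℝ) < m := by exact_mod_cast hm
  have hab : a ≤ a + 1 / m := by
    have : 0 < 1 / (m:ℝ) := by positivity
    linarith
  have hfin : volume (Sh n a (a + 1 / m)) < ∞ := by
    refine lt_of_le_of_lt (measure_mono ?_) (measure_closedBall_lt_top (x := 0) (r := a + 1 / m))
    intro η hη
    simpa using hη.2
  have h1 : ∫ η in Sh n a (a + 1 / m), rexp (-(2 * π) * ‖ξ - η‖ ^ 2) ≤
      ∫ η in Sh n a (a + 1 / m), (1:ℝ) := by
    refine setIntegral_mono_on (gauss_int (by positivity) ξ).integrableOn ?_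
      (measurableSet_Sh _ _) ?_
    · exact integrableOn_const hfin.ne
    · intro η _
      apply Real.exp_le_one_iff.2
      nlinarith [Real.pi_pos, sq_nonneg ‖ξ - η‖]
  refine h1.trans ?_
  rw [setIntegral_const, smul_eq_mul, mul_one]
  have hu : Metric.closedBall (0 : EuclideanSpace ℝ (Fin n)) a ∪ Sh n a (a + 1 / m) =
      Metric.closedBall 0 (a + 1 / m) := by
    ext η
    simp only [Set.mem_union, mem_closedBall_zero_iff, Sh]
    constructor
    · rintro (h | ⟨_, h⟩)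
      · exact h.trans hab
      · exact h
    · intro h
      rcases le_or_gt ‖η‖ a with h' | h'
      · exact Or.inl h'
      · exact Or.inr ⟨h', h⟩
  have hd : Disjoint (Metric.closedBall (0 : EuclideanSpace ℝ (Fin n)) a) (Sh n a (a + 1 / m)) := by
    rw [Set.disjoint_left]
    rintro η h1 ⟨h2, _⟩
    have : ‖η‖ ≤ a := by simpa using h1
    linarith
  have hadd := measureReal_union (μ := volume) hd (measurableSet_Sh (n := n) a (a + 1 / m))
    (h₁ := measure_closedBall_lt_top.ne) (h₂ := hfin.ne)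
  rw [hu] at hadd
  have hv : ∀ r : ℝ, 0 ≤ r → volume.real (Metric.closedBall (0 : EuclideanSpace ℝ (Fin n)) r) =
      r ^ n * V1 n := by
    intro r hr
    rw [Measure.real, Measure.addHaar_closedBall volume _ hr, ENNReal.toReal_mul,
      ENNReal.toReal_ofReal (by positivity), finrank_euclideanSpace_fin]
    rfl
  rw [hv _ ha, hv _ (by linarith)] at hadd
  have h2 := pow_sub_le n ha hab hb
  have h3 : (a + 1 / m) - a = 1 / (m:ℝ) := by ring
  rw [h3] at h2
  have h4 : volume.real (Sh n a (a + 1 / m)) = ((a + 1 / m) ^ n - a ^ n) * V1 n := by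
    rw [sub_mul]; linarith
  rw [h4]
  calc ((a + 1 / m) ^ n - a ^ n) * V1 n ≤ (n * (1 / m)) * V1 n := by
        gcongr
        exact V1_nonneg
    _ = n * V1 n / m := by ring

/-- constant of the thin shell bound -/
noncomputable def Ck (n : ℕ) : ℝ := rexp (32 * π) + n * V1 n

lemma Ck_pos : 0 < Ck n := by
  have := V1_nonneg (n := n)
  unfold Ck
  positivity

lemma kappa (a : ℝ) (ha : 0 ≤ a) (m : ℕ) (hm : 1 ≤ m) (h : 1 ≤ a ∨ a + 1 / m ≤ 1)
    (ξ : EuclideanSpace ℝ (Fin n)) :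
    ∫⁻ η in Sh n a (a + 1 / m), ENNReal.ofReal (rexp (-(2 * π) * ‖ξ - η‖ ^ 2)) ≤
      ENNReal.ofReal (Ck n / m) := by
  have hm0 : (0:ℝ) < m := by exact_mod_cast hm
  rw [← ofReal_integral_eq_lintegral_ofReal (gauss_int (by positivity) ξ).integrableOn
    (Eventually.of_forall fun η => Real.exp_nonneg _)]
  apply ENNReal.ofReal_le_ofReal
  have hV := V1_nonneg (n := n)
  rcases h with h | h
  · refine (thin_shell a h m hm ξ).trans ?_
    unfold Ck
    gcongr
    have : 0 ≤ (n:ℝ) * V1 n := by positivity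
    linarith
  · refine (small_shell a ha m hm h ξ).trans ?_
    unfold Ck
    gcongr
    have := Real.exp_pos (32 * π)
    linarith

lemma kappa_one (E : Set (EuclideanSpace ℝ (Fin n))) (ξ : EuclideanSpace ℝ (Fin n)) :
    ∫⁻ η in E, ENNReal.ofReal (rexp (-(2 * π) * ‖ξ - η‖ ^ 2)) ≤ 1 := by
  calc ∫⁻ η in E, ENNReal.ofReal (rexp (-(2 * π) * ‖ξ - η‖ ^ 2))
      ≤ ∫⁻ η, ENNReal.ofReal (rexp (-(2 * π) * ‖ξ - η‖ ^ 2)) := setLIntegral_le_lintegral _ _
    _ ≤ ∫⁻ η, ENNReal.ofReal (rexp (-π * ‖ξ - η‖ ^ 2)) := by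
        refine lintegral_mono fun η => ENNReal.ofReal_le_ofReal (Real.exp_le_exp.2 ?_)
        nlinarith [Real.pi_pos, sq_nonneg ‖ξ - η‖]
    _ = 1 := by
        rw [← ofReal_integral_eq_lintegral_ofReal (gauss_int Real.pi_pos ξ)
          (Eventually.of_forall fun η => Real.exp_nonneg _), gauss_total, ENNReal.ofReal_one]

/-- the basic constant -/
noncomputable def K1 (n : ℕ) : ℝ≥0∞ :=
  ENNReal.ofReal (rexp (π / 2)) * (ENNReal.ofReal ((2:ℝ) ^ ((n:ℝ) / 2)) * 2)

lemma K1_ne_top : K1 n ≠ ∞ := by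
  unfold K1
  exact ENNReal.mul_ne_top ENNReal.ofReal_ne_top
    (ENNReal.mul_ne_top ENNReal.ofReal_ne_top (by simp))

variable (g : EuclideanSpace ℝ (Fin n) → ℂ)

lemma full_bound (hgc : Continuous g) (hg : Integrable g) (E : Set (EuclideanSpace ℝ (Fin n))) :
    ∫⁻ x in Metric.closedBall (0 : EuclideanSpace ℝ (Fin n)) 1, ‖T g E x‖ₑ ^ 2 ≤
      K1 n * ∫⁻ ξ in E, ‖g ξ‖ₑ ^ 2 := by
  refine (local_bound g hgc E hg.integrableOn 1
    (Eventually.of_forall fun ξ => kappa_one E ξ)).trans (le_of_eq ?_)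
  unfold K1
  ring

lemma thin_bound (hgc : Continuous g) (hg : Integrable g) (a : ℝ) (ha : 0 ≤ a) (m : ℕ)
    (hm : 1 ≤ m) (h : 1 ≤ a ∨ a + 1 / m ≤ 1) :
    ∫⁻ x in Metric.closedBall (0 : EuclideanSpace ℝ (Fin n)) 1,
      ‖T g (Sh n a (a + 1 / m)) x‖ₑ ^ 2 ≤
      K1 n * (ENNReal.ofReal (Ck n / m) * ∫⁻ ξ in Sh n a (a + 1 / m), ‖g ξ‖ₑ ^ 2) := by
  refine (local_bound g hgc _ hg.integrableOn (ENNReal.ofReal (Ck n / m))
    (Eventually.of_forall fun ξ => kappa a ha m hm h ξ)).trans (le_of_eq ?_)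
  unfold K1
  ring

/-- subdivision points -/
noncomputable def rr (k m : ℕ) (l : ℕ) : ℝ := k + l / m

lemma rr_mono (k m : ℕ) : Monotone (rr k m) := by
  intro i j hij
  unfold rr
  have : (i:ℝ) ≤ j := by exact_mod_cast hij
  gcongr

lemma rr_succ (k m l : ℕ) : rr k m (l+1) = rr k m l + 1 / m := by
  unfold rr; push_cast; ring

lemma rr_zero (k m : ℕ) : rr k m 0 = k := by unfold rr; simp

lemma rr_last (k m : ℕ) (hm : 1 ≤ m) : rr k m m = k + 1 := by
  unfold rr
  have hm0 : (m:ℝ) ≠ 0 := by positivity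
  rw [div_self hm0]

/-- square function of the subdivision -/
noncomputable def GG (k m : ℕ) (x : EuclideanSpace ℝ (Fin n)) : ℝ≥0∞ :=
  ENNReal.ofReal (m * ∑ l ∈ Finset.range m, ‖T g (Sh n (rr k m l) (rr k m (l+1))) x‖ ^ 2)

lemma GG_measurable (hgc : Continuous g) (hg : Integrable g) (k m : ℕ) : Measurable (GG g k m) := by
  unfold GG
  have : Continuous fun x => (m:ℝ) * ∑ l ∈ Finset.range m,
      ‖T g (Sh n (rr k m l) (rr k m (l+1))) x‖ ^ 2 := by
    refine continuous_const.mul (continuous_finset_sum _ fun l _ => ?_)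
    exact ((T_continuous g hgc _ hg.integrableOn).norm.pow 2)
  exact this.measurable.ennreal_ofReal

lemma GG_lint (hgc : Continuous g) (hg : Integrable g) (k m : ℕ) :
    ∫⁻ x in Metric.closedBall (0 : EuclideanSpace ℝ (Fin n)) 1, GG g k m x ≤
      K1 n * ENNReal.ofReal (Ck n) * ∫⁻ ξ in Sh n k (k + 1), ‖g ξ‖ₑ ^ 2 := by
  rcases Nat.eq_zero_or_pos m with rfl | hm
  · simp [GG]
  have hm0 : (0:ℝ) < m := by exact_mod_cast hm
  have e1 : ∀ x, GG g k m x = (m:ℝ≥0∞) * ∑ l ∈ Finset.range m,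
      ‖T g (Sh n (rr k m l) (rr k m (l+1))) x‖ₑ ^ 2 := by
    intro x
    unfold GG
    rw [ENNReal.ofReal_mul hm0.le, ENNReal.ofReal_natCast,
      ENNReal.ofReal_sum_of_nonneg (fun l _ => by positivity)]
    congr 1
    refine Finset.sum_congr rfl fun l _ => ?_
    rw [ENNReal.ofReal_pow (norm_nonneg _), ofReal_norm]
  simp_rw [e1]
  have hms : ∀ l, Measurable fun x => ‖T g (Sh n (rr k m l) (rr k m (l+1))) x‖ₑ ^ 2 := fun l =>
    ((T_continuous g hgc _ hg.integrableOn).measurable.enorm).pow_const 2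
  rw [lintegral_const_mul _ (Finset.measurable_sum _ fun l _ => hms l),
    lintegral_finset_sum _ fun l _ => hms l]
  have hterm : ∀ l ∈ Finset.range m,
      ∫⁻ x in Metric.closedBall (0 : EuclideanSpace ℝ (Fin n)) 1,
        ‖T g (Sh n (rr k m l) (rr k m (l+1))) x‖ₑ ^ 2 ≤
      K1 n * (ENNReal.ofReal (Ck n / m) *
        ∫⁻ ξ in Sh n (rr k m l) (rr k m (l+1)), ‖g ξ‖ₑ ^ 2) := by
    intro l hl
    have hlm := Finset.mem_range.1 hl
    rw [rr_succ]
    refine thin_bound g hgc hg (rr k m l) (by unfold rr; positivity) m hm ?_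
    rcases Nat.eq_zero_or_pos k with rfl | hk
    · right
      rw [← rr_succ]
      calc rr 0 m (l+1) ≤ rr 0 m m := rr_mono 0 m (by omega)
        _ = 1 := by rw [rr_last 0 m hm]; simp
    · left
      have : (1:ℝ) ≤ k := by exact_mod_cast hk
      unfold rr
      have : (0:ℝ) ≤ l / m := by positivity
      linarith
  calc (m:ℝ≥0∞) * ∑ l ∈ Finset.range m, ∫⁻ x in Metric.closedBall (0 : EuclideanSpace ℝ (Fin n)) 1,
        ‖T g (Sh n (rr k m l) (rr k m (l+1))) x‖ₑ ^ 2
      ≤ (m:ℝ≥0∞) * ∑ l ∈ Finset.range m, K1 n * (ENNReal.ofReal (Ck n / m) *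
        ∫⁻ ξ in Sh n (rr k m l) (rr k m (l+1)), ‖g ξ‖ₑ ^ 2) := by
        gcongr with l hl
        exact hterm l hl
    _ = K1 n * ((m:ℝ≥0∞) * ENNReal.ofReal (Ck n / m)) *
        ∑ l ∈ Finset.range m, ∫⁻ ξ in Sh n (rr k m l) (rr k m (l+1)), ‖g ξ‖ₑ ^ 2 := by
        rw [← Finset.mul_sum, ← Finset.mul_sum]
        ring
    _ = K1 n * ENNReal.ofReal (Ck n) * ∫⁻ ξ in Sh n k (k + 1), ‖g ξ‖ₑ ^ 2 := by
        rw [tele_lint _ _ (rr_mono k m), rr_zero, rr_last k m hm,
          ← ENNReal.ofReal_natCast, ← ENNReal.ofReal_mul hm0.le]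
        congr 3
        field_simp

lemma T_grid (hg : Integrable g) (k m : ℕ) (i : ℕ) (him : i ≤ m) (hgc : Continuous g)
    (x : EuclideanSpace ℝ (Fin n)) :
    ‖T g (Sh n k (rr k m i)) x‖ₑ ^ 2 ≤ GG g k m x := by
  have hint : Integrable (fun ξ => g ξ * ee x ξ) := by
    refine hg.mul_bdd (c := 1) ?_ (Eventually.of_forall fun ξ => (norm_ee x ξ).le)
    exact (continuous_ee.comp (by fun_prop : Continuous (fun ξ => (x, ξ)))).aestronglyMeasurable
  have ht : T g (Sh n k (rr k m i)) x = ∑ l ∈ Finset.range i,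
      T g (Sh n (rr k m l) (rr k m (l+1))) x := by
    unfold T
    rw [tele_int _ hint _ (rr_mono k m), rr_zero]
  rw [← ofReal_norm, ← ENNReal.ofReal_pow (norm_nonneg _)]
  unfold GG
  apply ENNReal.ofReal_le_ofReal
  rw [ht]
  calc ‖∑ l ∈ Finset.range i, T g (Sh n (rr k m l) (rr k m (l+1))) x‖ ^ 2
      ≤ (∑ l ∈ Finset.range i, ‖T g (Sh n (rr k m l) (rr k m (l+1))) x‖) ^ 2 :=
        pow_le_pow_left₀ (norm_nonneg _) (norm_sum_le _ _) 2
    _ ≤ (Finset.range i).card * ∑ l ∈ Finset.range i,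
        ‖T g (Sh n (rr k m l) (rr k m (l+1))) x‖ ^ 2 := sq_sum_le_card_mul_sum_sq
    _ ≤ m * ∑ l ∈ Finset.range m, ‖T g (Sh n (rr k m l) (rr k m (l+1))) x‖ ^ 2 := by
        rw [Finset.card_range]
        have h1 : (i:ℝ) ≤ m := by exact_mod_cast him
        have h2 : ∑ l ∈ Finset.range i, ‖T g (Sh n (rr k m l) (rr k m (l+1))) x‖ ^ 2 ≤
            ∑ l ∈ Finset.range m, ‖T g (Sh n (rr k m l) (rr k m (l+1))) x‖ ^ 2 :=
          Finset.sum_le_sum_of_subset_of_nonneg (Finset.range_mono him)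
            (fun l _ _ => by positivity)
        exact mul_le_mul h1 h2 (Finset.sum_nonneg fun l _ => by positivity) (by positivity)

/-- measurable majorant of the maximal function inside the shell `k` -/
noncomputable def LL (k : ℕ) (x : EuclideanSpace ℝ (Fin n)) : ℝ≥0∞ :=
  liminf (fun m => GG g k m x) atTop

lemma LL_measurable (hgc : Continuous g) (hg : Integrable g) (k : ℕ) : Measurable (LL g k) :=
  Measurable.liminf fun m => GG_measurable g hgc hg k m

lemma LL_lint (hgc : Continuous g) (hg : Integrable g) (k : ℕ) :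
    ∫⁻ x in Metric.closedBall (0 : EuclideanSpace ℝ (Fin n)) 1, LL g k x ≤
      K1 n * ENNReal.ofReal (Ck n) * ∫⁻ ξ in Sh n k (k + 1), ‖g ξ‖ₑ ^ 2 := by
  refine (lintegral_liminf_le fun m => GG_measurable g hgc hg k m).trans ?_
  refine liminf_le_of_frequently_le' (Eventually.frequently (Eventually.of_forall fun m => ?_))
  exact GG_lint g hgc hg k m

lemma T_le_LL (hgc : Continuous g) (hg : Integrable g) (k : ℕ) (R : ℝ) (hR : k < R)
    (hR1 : R ≤ k + 1) (x : EuclideanSpace ℝ (Fin n)) :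
    ‖T g (Sh n k R) x‖ₑ ^ 2 ≤ LL g k x := by
  set i : ℕ → ℕ := fun m => ⌈(R - k) * m⌉₊ with hi
  have him : ∀ m, i m ≤ m := by
    intro m
    rw [hi]
    simp only
    rw [Nat.ceil_le]
    have : (0:ℝ) ≤ m := Nat.cast_nonneg m
    nlinarith
  have hge : ∀ m : ℕ, 1 ≤ m → R ≤ rr k m (i m) := by
    intro m hm
    have hm0 : (0:ℝ) < m := by exact_mod_cast hm
    unfold rr
    have h1 : (R - k) * m ≤ i m := Nat.le_ceil _
    have h2 : R - k ≤ (i m : ℝ) / m := by rw [le_div_iff₀ hm0]; exact h1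
    linarith
  have hle : ∀ m : ℕ, 1 ≤ m → rr k m (i m) ≤ R + 1 / m := by
    intro m hm
    have hm0 : (0:ℝ) < m := by exact_mod_cast hm
    unfold rr
    have h1 : (i m : ℝ) < (R - k) * m + 1 := Nat.ceil_lt_add_one (by
      have : 0 < R - k := by linarith
      positivity)
    have h2 : (i m : ℝ) / m ≤ (R - k) + 1 / m := by
      rw [div_le_iff₀ hm0]
      have : ((R - k) + 1 / m) * m = (R - k) * m + 1 := by field_simp
      linarith
    linarith
  have hlim : Tendsto (fun m : ℕ => T g (Sh n k (rr k m (i m))) x) atTop (𝓝 (T g (Sh n k R) x)) := by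
    unfold T
    simp_rw [← integral_indicator (measurableSet_Sh (n := n) _ _)]
    refine tendsto_integral_of_dominated_convergence (fun ξ => ‖g ξ‖) ?_ hg.norm ?_ ?_
    · intro m
      refine AEStronglyMeasurable.indicator ?_ (measurableSet_Sh _ _)
      exact (hgc.mul (continuous_ee.comp
        (by fun_prop : Continuous (fun ξ => (x, ξ))))).aestronglyMeasurable
    · intro m
      refine Eventually.of_forall fun ξ => ?_
      refine (norm_indicator_le_norm_self _ _).trans ?_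
      rw [norm_mul, norm_ee, mul_one]
    · refine Eventually.of_forall fun ξ => ?_
      refine tendsto_const_nhds.congr' ?_
      rcases le_or_gt ‖ξ‖ R with h | h
      · filter_upwards [eventually_ge_atTop 1] with m hm
        by_cases hk : (k:ℝ) < ‖ξ‖
        · rw [Set.indicator_of_mem (show ξ ∈ Sh n k R from ⟨hk, h⟩),
            Set.indicator_of_mem (show ξ ∈ Sh n k (rr k m (i m)) from ⟨hk, h.trans (hge m hm)⟩)]
        · rw [Set.indicator_of_notMem (fun h' => hk h'.1),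
            Set.indicator_of_notMem (fun h' => hk h'.1)]
      · have hpos : 0 < ‖ξ‖ - R := by linarith
        obtain ⟨M, hM⟩ := exists_nat_gt (1 / (‖ξ‖ - R))
        filter_upwards [eventually_ge_atTop (M + 1)] with m hm
        have hm1 : 1 ≤ m := by omega
        have hm0 : (0:ℝ) < m := by exact_mod_cast hm1
        have h1 : 1 / (‖ξ‖ - R) < m := hM.trans (by exact_mod_cast hm)
        have h2 : 1 / (m:ℝ) < ‖ξ‖ - R := by
          rw [div_lt_iff₀ hpos] at h1
          rw [div_lt_iff₀ hm0]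
          linarith
        rw [Set.indicator_of_notMem (fun h' => absurd h'.2 (not_le.2 h)),
          Set.indicator_of_notMem (fun h' => absurd h'.2 (not_le.2 (by linarith [hle m hm1])))]
  have hlim2 : Tendsto (fun m : ℕ => ‖T g (Sh n k (rr k m (i m))) x‖ₑ ^ 2) atTop
      (𝓝 (‖T g (Sh n k R) x‖ₑ ^ 2)) := by
    have hc : Continuous fun z : ℂ => ‖z‖ₑ ^ 2 := by fun_prop
    exact (hc.tendsto _).comp hlim
  rw [← hlim2.liminf_eq]
  exact liminf_le_liminf (Eventually.of_forall fun m => T_grid g hg k m (i m) (him m) hgc x)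

end Pool.Agent.R681.BM
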