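import Pool.Agent.R681.BM.D

/-!
# The randomised maximal function on the unit ball
-/

namespace Pool.Agent.R681.BM

open MeasureTheory Real Filter
open scoped ENNReal InnerProductSpace Pointwise Topology

variable {n : ℕ} (g : EuclideanSpace ℝ (Fin n) → ℂ)

/-- ball partial integral with the sign pattern `A` on the unit shells -/
noncomputable def SA (A : Finset ℕ) (R : ℝ) (x : EuclideanSpace ℝ (Fin n)) : ℂ :=
  ∫ ξ in Metric.closedBall (0 : EuclideanSpace ℝ (Fin n)) R, sg A (⌈‖ξ‖⌉₊ - 1) * (g ξ * ee x ξ)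

lemma measurable_sgn (A : Finset ℕ) :
    Measurable (fun ξ : EuclideanSpace ℝ (Fin n) => sg A (⌈‖ξ‖⌉₊ - 1)) := by
  have h1 : Measurable (fun l : ℕ => sg A l) := measurable_from_top
  have h2 : Measurable (fun ξ : EuclideanSpace ℝ (Fin n) => ⌈‖ξ‖⌉₊ - 1) :=
    (Nat.measurable_ceil.comp measurable_norm).sub_const 1
  exact h1.comp h2

lemma ball_eq [Nontrivial (EuclideanSpace ℝ (Fin n))] (R : ℝ) (hR : 0 ≤ R) :
    (Metric.closedBall (0 : EuclideanSpace ℝ (Fin n)) R) =ᵐ[volume] Sh n 0 R := by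
  have h0 : volume ({0} : Set (EuclideanSpace ℝ (Fin n))) = 0 := measure_singleton 0
  have : (Metric.closedBall (0 : EuclideanSpace ℝ (Fin n)) R) = Sh n 0 R ∪ {0} := by
    ext ξ
    simp only [Set.mem_union, mem_closedBall_zero_iff, Sh, Set.mem_singleton_iff]
    constructor
    · intro h
      rcases eq_or_ne ξ 0 with h1 | h1
      · exact Or.inr h1
      · exact Or.inl ⟨norm_pos_iff.2 h1, h⟩
    · rintro (⟨_, h⟩ | h)
      · exact h
      · rw [h, norm_zero]; exact hR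
  rw [this]
  exact union_ae_eq_left_of_ae_eq_empty (ae_eq_empty.2 h0)

lemma SA_eq [Nontrivial (EuclideanSpace ℝ (Fin n))] (hgc : Continuous g) (hg : Integrable g)
    (A : Finset ℕ) (k : ℕ) (R : ℝ) (hR : k ≤ R)
    (hR1 : R ≤ k + 1) (x : EuclideanSpace ℝ (Fin n)) :
    SA g A R x = SS (fun l : ℕ => T g (Sh n l (l + 1)) x) A k + sg A k * T g (Sh n k R) x := by
  have hint : Integrable (fun ξ => g ξ * ee x ξ) := by
    refine hg.mul_bdd (c := 1) ?_ (Eventually.of_forall fun ξ => (norm_ee x ξ).le)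
    exact (continuous_ee.comp (by fun_prop : Continuous (fun ξ => (x, ξ)))).aestronglyMeasurable
  have hint2 : Integrable (fun ξ => sg A (⌈‖ξ‖⌉₊ - 1) * (g ξ * ee x ξ)) := by
    refine hint.bdd_mul (c := 1) (measurable_sgn A).aestronglyMeasurable
      (Eventually.of_forall fun ξ => (norm_sg A _).le)
  have hk0 : (0:ℝ) ≤ k := Nat.cast_nonneg k
  unfold SA
  rw [setIntegral_congr_set (ball_eq R (hk0.trans hR)), ← Sh_union hk0 hR,
    setIntegral_union Sh_disj (measurableSet_Sh _ _) hint2.integrableOn hint2.integrableOn]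
  have hconst : ∀ (l : ℕ) (r : ℝ), r ≤ l + 1 → ∫ ξ in Sh n l r, sg A (⌈‖ξ‖⌉₊ - 1) * (g ξ * ee x ξ) =
      sg A l * T g (Sh n l r) x := by
    intro l r hr
    unfold T
    rw [← integral_const_mul]
    refine setIntegral_congr_fun (measurableSet_Sh _ _) fun ξ hξ => ?_
    have : ⌈‖ξ‖⌉₊ = l + 1 := by
      rw [Nat.ceil_eq_iff (by omega)]
      constructor
      · simpa using hξ.1
      · push_cast; exact hξ.2.trans hr
    simp only [this, Nat.add_sub_cancel]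
  congr 1
  · have hr : Monotone (fun j : ℕ => (j:ℝ)) := Nat.mono_cast
    have := tele_int (fun ξ => sg A (⌈‖ξ‖⌉₊ - 1) * (g ξ * ee x ξ)) hint2 (fun j : ℕ => (j:ℝ)) hr k
    simp only [Nat.cast_zero] at this
    rw [← this]
    unfold SS
    refine Finset.sum_congr rfl fun l _ => ?_
    push_cast
    exact hconst l (l+1) le_rfl
  · exact hconst k R hR1

lemma MM_continuous (hgc : Continuous g) (hg : Integrable g) (A : Finset ℕ) (N : ℕ) :
    Continuous fun x => MM (fun l : ℕ => T g (Sh n l (l + 1)) x) A N := by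
  induction N with
  | zero => simp only [MM]; exact continuous_const
  | succ N ih =>
    simp only [MM]
    refine ih.max ?_
    unfold SS
    exact (continuous_finsetSum _ fun l _ =>
      continuous_const.mul (T_continuous g hgc _ hg.integrableOn)).norm

lemma sup_le [Nontrivial (EuclideanSpace ℝ (Fin n))] (hgc : Continuous g) (hg : Integrable g)
    (A : Finset ℕ) (N : ℕ) (x : EuclideanSpace ℝ (Fin n)) :
    ⨆ R ∈ Set.Ioc (0:ℝ) N, ‖SA g A R x‖ₑ ^ 2 ≤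
      2 * ENNReal.ofReal (MM (fun l : ℕ => T g (Sh n l (l + 1)) x) A N ^ 2) +
      2 * ∑ k ∈ Finset.range N, LL g k x := by
  refine iSup₂_le fun R hR => ?_
  set k := ⌈R⌉₊ - 1 with hk
  have hc1 : 1 ≤ ⌈R⌉₊ := Nat.one_le_iff_ne_zero.2 (Nat.ceil_pos.2 hR.1).ne'
  have hkc : ((k + 1 : ℕ) : ℝ) = ⌈R⌉₊ := by rw [hk]; congr 1; omega
  have hkR : (k:ℝ) < R := by
    have := Nat.ceil_lt_add_one hR.1.le
    push_cast at hkc
    linarith
  have hRk : R ≤ k + 1 := by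
    have := Nat.le_ceil R
    push_cast at hkc
    linarith
  have hkN : k < N := by
    have : ⌈R⌉₊ ≤ N := Nat.ceil_le.2 hR.2
    omega
  rw [SA_eq g hgc hg A k R hkR.le hRk]
  set a := fun l : ℕ => T g (Sh n l (l + 1)) x with ha
  have h1 : ‖SS a A k + sg A k * T g (Sh n k R) x‖ ≤ MM a A N + ‖T g (Sh n k R) x‖ := by
    refine (norm_add_le _ _).trans ?_
    rw [norm_mul, norm_sg, one_mul]
    gcongr
    exact (norm_le_MM a A k).trans (MM_mono a A hkN.le)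
  have hM := MM_nonneg a A N
  have h2 : ‖SS a A k + sg A k * T g (Sh n k R) x‖ ^ 2 ≤
      2 * MM a A N ^ 2 + 2 * ‖T g (Sh n k R) x‖ ^ 2 := by
    have h3 := norm_nonneg (SS a A k + sg A k * T g (Sh n k R) x)
    have h4 := norm_nonneg (T g (Sh n k R) x)
    nlinarith [sq_nonneg (MM a A N - ‖T g (Sh n k R) x‖)]
  rw [← ofReal_norm, ← ENNReal.ofReal_pow (norm_nonneg _)]
  refine (ENNReal.ofReal_le_ofReal h2).trans ?_
  rw [ENNReal.ofReal_add (by positivity) (by positivity), ENNReal.ofReal_mul (by norm_num),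
    ENNReal.ofReal_mul (by norm_num)]
  have e2 : ENNReal.ofReal 2 = 2 := by simp
  rw [e2]
  gcongr
  rw [ENNReal.ofReal_pow (norm_nonneg _), ofReal_norm]
  refine (T_le_LL g hgc hg k R hkR hRk x).trans ?_
  exact Finset.single_le_sum (f := fun k => LL g k x) (fun _ _ => zero_le)
    (Finset.mem_range.2 hkN)

/-- the constant -/
noncomputable def CC (n : ℕ) : ℝ≥0∞ := K1 n * (8 + 2 * ENNReal.ofReal (Ck n))

lemma CC_ne_top : CC n ≠ ∞ := by
  unfold CC
  exact ENNReal.mul_ne_top K1_ne_top (ENNReal.add_ne_top.2 ⟨by simp,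
    ENNReal.mul_ne_top (by simp) ENNReal.ofReal_ne_top⟩)

lemma sum_shells (N : ℕ) : ∑ k ∈ Finset.range N, ∫⁻ ξ in Sh n k (k + 1), ‖g ξ‖ₑ ^ 2 ≤
    ∫⁻ ξ, ‖g ξ‖ₑ ^ 2 := by
  have hr : Monotone (fun j : ℕ => (j:ℝ)) := Nat.mono_cast
  have := tele_lint (fun ξ => ‖g ξ‖ₑ ^ 2) (fun j : ℕ => (j:ℝ)) hr N
  push_cast at this
  rw [this]
  exact setLIntegral_le_lintegral _ _

/-- **Unit scale theorem** -/
theorem unit_scale [Nontrivial (EuclideanSpace ℝ (Fin n))] (hgc : Continuous g)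
    (hg : Integrable g) (N : ℕ) :
    ∑ A ∈ (Finset.range N).powerset,
      ∫⁻ x in Metric.closedBall (0 : EuclideanSpace ℝ (Fin n)) 1,
        ⨆ R ∈ Set.Ioc (0:ℝ) N, ‖SA g A R x‖ₑ ^ 2 ≤ 2 ^ N * (CC n * ∫⁻ ξ, ‖g ξ‖ₑ ^ 2) := by
  set B := volume.restrict (Metric.closedBall (0 : EuclideanSpace ℝ (Fin n)) 1) with hB
  set a : EuclideanSpace ℝ (Fin n) → ℕ → ℂ := fun x l => T g (Sh n l (l + 1)) x with ha
  have hMm : ∀ A : Finset ℕ, Measurable fun x => ENNReal.ofReal (MM (a x) A N ^ 2) := fun A =>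
    ((MM_continuous g hgc hg A N).pow 2).measurable.ennreal_ofReal
  have hLm : Measurable fun x => ∑ k ∈ Finset.range N, LL g k x :=
    Finset.measurable_sum _ fun k _ => LL_measurable g hgc hg k
  have h1 : ∀ A ∈ (Finset.range N).powerset,
      ∫⁻ x, ⨆ R ∈ Set.Ioc (0:ℝ) N, ‖SA g A R x‖ₑ ^ 2 ∂B ≤
      2 * ∫⁻ x, ENNReal.ofReal (MM (a x) A N ^ 2) ∂B +
      2 * ∫⁻ x, ∑ k ∈ Finset.range N, LL g k x ∂B := by
    intro A _
    rw [← lintegral_const_mul _ (hMm A), ← lintegral_const_mul _ hLm,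
      ← lintegral_add_left ((hMm A).const_mul 2)]
    exact lintegral_mono fun x => sup_le g hgc hg A N x
  have h2 : ∫⁻ x, ∑ k ∈ Finset.range N, LL g k x ∂B ≤
      K1 n * ENNReal.ofReal (Ck n) * ∫⁻ ξ, ‖g ξ‖ₑ ^ 2 := by
    rw [lintegral_finsetSum _ fun k _ => LL_measurable g hgc hg k]
    calc ∑ k ∈ Finset.range N, ∫⁻ x, LL g k x ∂B
        ≤ ∑ k ∈ Finset.range N, K1 n * ENNReal.ofReal (Ck n) *
          ∫⁻ ξ in Sh n k (k + 1), ‖g ξ‖ₑ ^ 2 :=
          Finset.sum_le_sum fun k _ => LL_lint g hgc hg k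
      _ = K1 n * ENNReal.ofReal (Ck n) *
          ∑ k ∈ Finset.range N, ∫⁻ ξ in Sh n k (k + 1), ‖g ξ‖ₑ ^ 2 := by rw [Finset.mul_sum]
      _ ≤ _ := by gcongr; exact sum_shells g N
  have h3 : ∑ A ∈ (Finset.range N).powerset, ∫⁻ x, ENNReal.ofReal (MM (a x) A N ^ 2) ∂B ≤
      2 ^ N * (4 * (K1 n * ∫⁻ ξ, ‖g ξ‖ₑ ^ 2)) := by
    rw [← lintegral_finsetSum _ fun A _ => hMm A]
    have hpt : ∀ x, ∑ A ∈ (Finset.range N).powerset, ENNReal.ofReal (MM (a x) A N ^ 2) ≤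
        2 ^ N * (4 * ∑ l ∈ Finset.range N, ‖T g (Sh n l (l + 1)) x‖ₑ ^ 2) := by
      intro x
      rw [← ENNReal.ofReal_sum_of_nonneg (fun A _ => by positivity)]
      refine (ENNReal.ofReal_le_ofReal (max_sum (a x) N)).trans (le_of_eq ?_)
      rw [ENNReal.ofReal_mul (by norm_num), ENNReal.ofReal_mul (by positivity),
        ENNReal.ofReal_sum_of_nonneg (fun l _ => by positivity),
        ENNReal.ofReal_pow (by norm_num)]
      have e4 : ENNReal.ofReal 4 = 4 := by simp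
      have e2 : ENNReal.ofReal 2 = 2 := by simp
      rw [e4, e2]
      have : ∀ l, ENNReal.ofReal (‖a x l‖ ^ 2) = ‖T g (Sh n l (l + 1)) x‖ₑ ^ 2 := by
        intro l
        rw [ENNReal.ofReal_pow (norm_nonneg _), ofReal_norm]
      simp_rw [this]
      ring
    refine (lintegral_mono hpt).trans ?_
    have hms : ∀ l : ℕ, Measurable fun x => ‖T g (Sh n l (l + 1)) x‖ₑ ^ 2 := fun l =>
      ((T_continuous g hgc _ hg.integrableOn).measurable.enorm).pow_const 2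
    rw [lintegral_const_mul _ ((Finset.measurable_sum _ fun l _ => hms l).const_mul 4),
      lintegral_const_mul _ (Finset.measurable_sum _ fun l _ => hms l),
      lintegral_finsetSum _ fun l _ => hms l]
    gcongr
    calc ∑ l ∈ Finset.range N, ∫⁻ x, ‖T g (Sh n l (l + 1)) x‖ₑ ^ 2 ∂B
        ≤ ∑ l ∈ Finset.range N, K1 n * ∫⁻ ξ in Sh n l (l + 1), ‖g ξ‖ₑ ^ 2 :=
          Finset.sum_le_sum fun l _ => full_bound g hgc hg _
      _ = K1 n * ∑ l ∈ Finset.range N, ∫⁻ ξ in Sh n l (l + 1), ‖g ξ‖ₑ ^ 2 := by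
          rw [Finset.mul_sum]
      _ ≤ _ := by gcongr; exact sum_shells g N
  calc ∑ A ∈ (Finset.range N).powerset, ∫⁻ x, ⨆ R ∈ Set.Ioc (0:ℝ) N, ‖SA g A R x‖ₑ ^ 2 ∂B
      ≤ ∑ A ∈ (Finset.range N).powerset, (2 * ∫⁻ x, ENNReal.ofReal (MM (a x) A N ^ 2) ∂B +
        2 * ∫⁻ x, ∑ k ∈ Finset.range N, LL g k x ∂B) := Finset.sum_le_sum h1
    _ = 2 * ∑ A ∈ (Finset.range N).powerset, ∫⁻ x, ENNReal.ofReal (MM (a x) A N ^ 2) ∂B +
        2 ^ N * (2 * ∫⁻ x, ∑ k ∈ Finset.range N, LL g k x ∂B) := by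
        rw [Finset.sum_add_distrib, ← Finset.mul_sum, Finset.sum_const, Finset.card_powerset,
          Finset.card_range, nsmul_eq_mul]
        push_cast
        ring
    _ ≤ 2 * (2 ^ N * (4 * (K1 n * ∫⁻ ξ, ‖g ξ‖ₑ ^ 2))) +
        2 ^ N * (2 * (K1 n * ENNReal.ofReal (Ck n) * ∫⁻ ξ, ‖g ξ‖ₑ ^ 2)) := by
        gcongr
    _ = 2 ^ N * (CC n * ∫⁻ ξ, ‖g ξ‖ₑ ^ 2) := by
        unfold CC
        ring

end Pool.Agent.R681.BM
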