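import Pool.Agent.R681.BM.E

/-!
# Scaling
-/

namespace Pool.Agent.R681.BM

open MeasureTheory Real Filter
open scoped ENNReal InnerProductSpace Pointwise Topology

variable {n : ℕ}

lemma lint_smul {t : ℝ} (ht : 0 < t) (F : EuclideanSpace ℝ (Fin n) → ℝ≥0∞) :
    ∫⁻ x, F x = ENNReal.ofReal (t ^ n) * ∫⁻ x, F (t • x) := by
  have h := Measure.map_addHaar_smul (volume : Measure (EuclideanSpace ℝ (Fin n))) ht.ne'
  have h2 : ∫⁻ x, F (t • x) = ∫⁻ x, F x ∂(Measure.map (t • ·) (volume : Measure (EuclideanSpace ℝ (Fin n)))) := by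
    let e : EuclideanSpace ℝ (Fin n) ≃ᵐ EuclideanSpace ℝ (Fin n) :=
      (Homeomorph.smulOfNeZero t ht.ne').toMeasurableEquiv
    exact (lintegral_map_equiv F e).symm
  rw [h2, h, lintegral_smul_measure, finrank_euclideanSpace_fin, smul_eq_mul, ← mul_assoc,
    ← ENNReal.ofReal_mul (by positivity), abs_of_pos (by positivity),
    mul_inv_cancel₀ (by positivity), ENNReal.ofReal_one, one_mul]

lemma smul_ball {t : ℝ} (ht : 0 < t) (r : ℝ) (x : EuclideanSpace ℝ (Fin n)) :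
    t • x ∈ Metric.closedBall (0 : EuclideanSpace ℝ (Fin n)) (t * r) ↔
      x ∈ Metric.closedBall (0 : EuclideanSpace ℝ (Fin n)) r := by
  simp only [mem_closedBall_zero_iff, norm_smul, Real.norm_of_nonneg ht.le]
  exact mul_le_mul_iff_right₀ ht

lemma lint_ball_smul {t : ℝ} (ht : 0 < t) (r : ℝ) (F : EuclideanSpace ℝ (Fin n) → ℝ≥0∞) :
    ∫⁻ x in Metric.closedBall (0 : EuclideanSpace ℝ (Fin n)) (t * r), F x =
      ENNReal.ofReal (t ^ n) *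
        ∫⁻ x in Metric.closedBall (0 : EuclideanSpace ℝ (Fin n)) r, F (t • x) := by
  rw [← lintegral_indicator measurableSet_closedBall, lint_smul ht,
    ← lintegral_indicator measurableSet_closedBall]
  congr 1
  refine lintegral_congr fun x => ?_
  by_cases hx : x ∈ Metric.closedBall (0 : EuclideanSpace ℝ (Fin n)) r
  · rw [Set.indicator_of_mem ((smul_ball ht r x).2 hx), Set.indicator_of_mem hx]
  · rw [Set.indicator_of_notMem (fun h => hx ((smul_ball ht r x).1 h)),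
      Set.indicator_of_notMem hx]

/-- ball partial integral with signs constant on the shells `l < ρ |ξ| ≤ l + 1` -/
noncomputable def RS (g : EuclideanSpace ℝ (Fin n) → ℂ) (ρ : ℝ) (A : Finset ℕ) (R : ℝ)
    (x : EuclideanSpace ℝ (Fin n)) : ℂ :=
  ∫ ξ in Metric.closedBall (0 : EuclideanSpace ℝ (Fin n)) R,
    sg A (⌈ρ * ‖ξ‖⌉₊ - 1) * (g ξ * ee x ξ)

lemma RS_scale (g : EuclideanSpace ℝ (Fin n) → ℂ) {ρ : ℝ} (hρ : 0 < ρ) (A : Finset ℕ) (R : ℝ)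
    (x : EuclideanSpace ℝ (Fin n)) :
    RS g ρ A R (ρ • x) = ((ρ ^ n)⁻¹ : ℝ) • SA (fun η => g (ρ⁻¹ • η)) A (ρ * R) x := by
  unfold RS SA
  have h := Measure.setIntegral_comp_smul_of_pos (volume : Measure (EuclideanSpace ℝ (Fin n)))
    (fun η => sg A (⌈‖η‖⌉₊ - 1) * (g (ρ⁻¹ • η) * ee x η))
    (Metric.closedBall (0 : EuclideanSpace ℝ (Fin n)) R) hρ
  rw [finrank_euclideanSpace_fin] at h
  have hset : ρ • Metric.closedBall (0 : EuclideanSpace ℝ (Fin n)) R =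
      Metric.closedBall (0 : EuclideanSpace ℝ (Fin n)) (ρ * R) := by
    ext ξ
    rw [Set.mem_smul_set_iff_inv_smul_mem₀ hρ.ne', ← smul_ball hρ, smul_inv_smul₀ hρ.ne']
  rw [hset] at h
  rw [← h]
  refine setIntegral_congr_fun measurableSet_closedBall fun ξ _ => ?_
  beta_reduce
  rw [inv_smul_smul₀ hρ.ne', norm_smul, Real.norm_of_nonneg hρ.le]
  congr 2
  unfold ee
  rw [real_inner_smul_left, real_inner_smul_right]

theorem scaled [Nontrivial (EuclideanSpace ℝ (Fin n))] (g : EuclideanSpace ℝ (Fin n) → ℂ)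
    (hgc : Continuous g) (hg : Integrable g) {ρ : ℝ} (hρ : 0 < ρ) (N : ℕ) :
    ∑ A ∈ (Finset.range N).powerset,
      ∫⁻ x in Metric.closedBall (0 : EuclideanSpace ℝ (Fin n)) ρ,
        ⨆ R ∈ Set.Ioc (0:ℝ) (N / ρ), ‖RS g ρ A R x‖ₑ ^ 2 ≤ 2 ^ N * (CC n * ∫⁻ ξ, ‖g ξ‖ₑ ^ 2) := by
  set g' : EuclideanSpace ℝ (Fin n) → ℂ := fun η => g (ρ⁻¹ • η) with hg'
  have hgc' : Continuous g' := hgc.comp (continuous_const_smul _)
  have hgi' : Integrable g' := hg.comp_smul (inv_pos.2 hρ).ne'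
  have hun := unit_scale g' hgc' hgi' N
  have hρn : 0 < ρ ^ n := by positivity
  -- the integral of `g'`
  have hg2 : ∫⁻ ξ, ‖g' ξ‖ₑ ^ 2 = ENNReal.ofReal (ρ ^ n) * ∫⁻ ξ, ‖g ξ‖ₑ ^ 2 := by
    rw [lint_smul hρ (fun ξ => ‖g' ξ‖ₑ ^ 2)]
    simp only [hg']
    simp_rw [inv_smul_smul₀ hρ.ne']
  have hterm : ∀ A ∈ (Finset.range N).powerset,
      ∫⁻ x in Metric.closedBall (0 : EuclideanSpace ℝ (Fin n)) ρ,
        ⨆ R ∈ Set.Ioc (0:ℝ) (N / ρ), ‖RS g ρ A R x‖ₑ ^ 2 ≤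
      ENNReal.ofReal (ρ ^ n)⁻¹ * ∫⁻ x in Metric.closedBall (0 : EuclideanSpace ℝ (Fin n)) 1,
        ⨆ R ∈ Set.Ioc (0:ℝ) N, ‖SA g' A R x‖ₑ ^ 2 := by
    intro A _
    have h1 := lint_ball_smul hρ 1 (fun x : EuclideanSpace ℝ (Fin n) =>
      ⨆ R ∈ Set.Ioc (0:ℝ) (N / ρ), ‖RS g ρ A R x‖ₑ ^ 2)
    rw [mul_one] at h1
    rw [h1]
    have hpt : ∀ x : EuclideanSpace ℝ (Fin n),
        ⨆ R ∈ Set.Ioc (0:ℝ) (N / ρ), ‖RS g ρ A R (ρ • x)‖ₑ ^ 2 ≤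
        ENNReal.ofReal (((ρ ^ n)⁻¹) ^ 2) * ⨆ R ∈ Set.Ioc (0:ℝ) N, ‖SA g' A R x‖ₑ ^ 2 := by
      intro x
      refine iSup₂_le fun R hR => ?_
      rw [RS_scale g hρ, enorm_smul, mul_pow]
      have e1 : ‖((ρ ^ n)⁻¹ : ℝ)‖ₑ ^ 2 = ENNReal.ofReal (((ρ ^ n)⁻¹) ^ 2) := by
        rw [Real.enorm_eq_ofReal (by positivity), ENNReal.ofReal_pow (by positivity)]
      rw [e1]
      gcongr
      refine le_iSup₂_of_le (ρ * R) ⟨by have := hR.1; positivity, ?_⟩ le_rfl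
      have := hR.2
      rw [le_div_iff₀ hρ] at this
      linarith
    calc ENNReal.ofReal (ρ ^ n) * ∫⁻ x in Metric.closedBall (0 : EuclideanSpace ℝ (Fin n)) 1,
          ⨆ R ∈ Set.Ioc (0:ℝ) (N / ρ), ‖RS g ρ A R (ρ • x)‖ₑ ^ 2
        ≤ ENNReal.ofReal (ρ ^ n) * ∫⁻ x in Metric.closedBall (0 : EuclideanSpace ℝ (Fin n)) 1,
          ENNReal.ofReal (((ρ ^ n)⁻¹) ^ 2) * ⨆ R ∈ Set.Ioc (0:ℝ) N, ‖SA g' A R x‖ₑ ^ 2 := by
          gcongr with x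
          exact hpt x
      _ = _ := by
          rw [lintegral_const_mul' _ _ ENNReal.ofReal_ne_top, ← mul_assoc,
            ← ENNReal.ofReal_mul hρn.le]
          congr 2
          field_simp
  calc ∑ A ∈ (Finset.range N).powerset,
      ∫⁻ x in Metric.closedBall (0 : EuclideanSpace ℝ (Fin n)) ρ,
        ⨆ R ∈ Set.Ioc (0:ℝ) (N / ρ), ‖RS g ρ A R x‖ₑ ^ 2
      ≤ ∑ A ∈ (Finset.range N).powerset, ENNReal.ofReal (ρ ^ n)⁻¹ *
        ∫⁻ x in Metric.closedBall (0 : EuclideanSpace ℝ (Fin n)) 1,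
          ⨆ R ∈ Set.Ioc (0:ℝ) N, ‖SA g' A R x‖ₑ ^ 2 := Finset.sum_le_sum hterm
    _ ≤ ENNReal.ofReal (ρ ^ n)⁻¹ * (2 ^ N * (CC n * ∫⁻ ξ, ‖g' ξ‖ₑ ^ 2)) := by
        rw [← Finset.mul_sum]
        gcongr
    _ = (ENNReal.ofReal (ρ ^ n)⁻¹ * ENNReal.ofReal (ρ ^ n)) *
        (2 ^ N * (CC n * ∫⁻ ξ, ‖g ξ‖ₑ ^ 2)) := by
        rw [hg2]; ring
    _ = _ := by
        rw [← ENNReal.ofReal_mul (by positivity), inv_mul_cancel₀ hρn.ne', ENNReal.ofReal_one,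
          one_mul]

end Pool.Agent.R681.BM
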