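import Pool.Agent.R681.BM.F

/-!
# Signs which are constant on blocks of `2 ^ s` shells
-/

namespace Pool.Agent.R681.BM

open MeasureTheory Real Filter
open scoped ENNReal InnerProductSpace Pointwise Topology

variable {n : ℕ} (g : EuclideanSpace ℝ (Fin n) → ℂ)

lemma T_add (hg : Integrable g) {a b c : ℝ} (hab : a ≤ b) (hbc : b ≤ c)
    (x : EuclideanSpace ℝ (Fin n)) :
    T g (Sh n a c) x = T g (Sh n a b) x + T g (Sh n b c) x := by
  have hint : Integrable (fun ξ => g ξ * ee x ξ) := by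
    refine hg.mul_bdd (c := 1) ?_ (Eventually.of_forall fun ξ => (norm_ee x ξ).le)
    exact (continuous_ee.comp (by fun_prop : Continuous (fun ξ => (x, ξ)))).aestronglyMeasurable
  unfold T
  rw [← Sh_union hab hbc, setIntegral_union Sh_disj (measurableSet_Sh _ _) hint.integrableOn
    hint.integrableOn]

/-- dyadic square function of the `2 ^ s` shells starting at `u` -/
noncomputable def QQ : ℕ → ℕ → EuclideanSpace ℝ (Fin n) → ℝ
  | 0, u, x => ‖T g (Sh n u (u + 1)) x‖ ^ 2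
  | (s+1), u, x => ‖T g (Sh n u (u + 2 ^ (s+1))) x‖ ^ 2 + (QQ s u x + QQ s (u + 2 ^ s) x)

lemma QQ_nonneg (s u : ℕ) (x : EuclideanSpace ℝ (Fin n)) : 0 ≤ QQ g s u x := by
  induction s generalizing u with
  | zero => simp only [QQ]; positivity
  | succ s ih =>
    simp only [QQ]
    have := ih u
    have := ih (u + 2 ^ s)
    positivity

lemma top_le_QQ (s u : ℕ) (x : EuclideanSpace ℝ (Fin n)) :
    ‖T g (Sh n u (u + 2 ^ s)) x‖ ^ 2 ≤ QQ g s u x := by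
  cases s with
  | zero => simp [QQ]
  | succ s =>
    simp only [QQ]
    have := QQ_nonneg g s u x
    have := QQ_nonneg g s (u + 2 ^ s) x
    linarith

/-- pointwise Rademacher-Menshov inequality -/
lemma partial_le (hg : Integrable g) (s : ℕ) : ∀ (u i : ℕ), i ≤ 2 ^ s →
    ∀ x : EuclideanSpace ℝ (Fin n),
    ‖T g (Sh n u (u + i)) x‖ ^ 2 ≤ (s + 1) * QQ g s u x := by
  induction s with
  | zero =>
    intro u i hi x
    have hq := QQ_nonneg g 0 u x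
    interval_cases i
    · simp [Sh_self, T]
      simpa using hq
    · simp [QQ]
  | succ s ih =>
    intro u i hi x
    have hs0 : (0:ℝ) ≤ s := Nat.cast_nonneg s
    have hq1 := QQ_nonneg g s u x
    have hq2 := QQ_nonneg g s (u + 2 ^ s) x
    have hq : QQ g (s+1) u x = ‖T g (Sh n u (u + 2 ^ (s+1))) x‖ ^ 2 +
      (QQ g s u x + QQ g s (u + 2 ^ s) x) := rfl
    have hT := sq_nonneg ‖T g (Sh n u (u + 2 ^ (s+1))) x‖
    rcases le_or_gt i (2 ^ s) with h | h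
    · have h1 := ih u i h x
      push_cast
      nlinarith
    · obtain ⟨j, rfl⟩ : ∃ j, i = 2 ^ s + j := ⟨i - 2 ^ s, by omega⟩
      have hj : j ≤ 2 ^ s := by rw [pow_succ] at hi; omega
      have h2 := ih (u + 2 ^ s) j hj x
      have h3 := top_le_QQ g s u x
      have hsplit := T_add g hg (a := u) (b := u + 2 ^ s) (c := u + ((2 ^ s + j : ℕ) : ℝ))
        (by have : (0:ℝ) ≤ 2 ^ s := by positivity
            linarith) (by push_cast; have : (0:ℝ) ≤ j := Nat.cast_nonneg j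
                          linarith) x
      have e : (u:ℝ) + ((2 ^ s + j : ℕ) : ℝ) = ((u + 2 ^ s : ℕ) : ℝ) + j := by push_cast; ring
      have e' : (u:ℝ) + 2 ^ s = ((u + 2 ^ s : ℕ) : ℝ) := by push_cast; ring
      rw [e, e'] at hsplit
      rw [e, hsplit]
      set X := T g (Sh n u ((u + 2 ^ s : ℕ) : ℝ)) x with hX
      set Y := T g (Sh n ((u + 2 ^ s : ℕ) : ℝ) (((u + 2 ^ s : ℕ) : ℝ) + j)) x with hY
      rw [e'] at h3
      have h4 : ‖X + Y‖ ^ 2 ≤ (‖X‖ + ‖Y‖) ^ 2 := pow_le_pow_left₀ (norm_nonneg _) (norm_add_le _ _) 2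
      -- `(a+b)^2 ≤ (s+2) a^2 + (s+2)/(s+1) b^2`
      have hs1 : (0:ℝ) < s + 1 := by positivity
      have h5 : (‖X‖ + ‖Y‖) ^ 2 ≤ (s + 2) * ‖X‖ ^ 2 + (s + 2) / (s + 1) * ‖Y‖ ^ 2 := by
        have h6 : 0 ≤ ((s + 1) * ‖X‖ - ‖Y‖) ^ 2 / (s + 1) := by positivity
        have h7 : (s + 2) * ‖X‖ ^ 2 + (s + 2) / (s + 1) * ‖Y‖ ^ 2 - (‖X‖ + ‖Y‖) ^ 2 =
          ((s + 1) * ‖X‖ - ‖Y‖) ^ 2 / (s + 1) := by
          field_simp
          ring
        linarith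
      have h8 : (s + 2) / (s + 1) * ‖Y‖ ^ 2 ≤ (s + 2) * QQ g s (u + 2 ^ s) x := by
        calc ((s:ℝ) + 2) / (s + 1) * ‖Y‖ ^ 2 ≤ (s + 2) / (s + 1) * ((s + 1) * QQ g s (u + 2 ^ s) x) := by
              gcongr
          _ = _ := by field_simp
      push_cast
      rw [hq]
      nlinarith

lemma QQ_continuous (hgc : Continuous g) (hg : Integrable g) (s u : ℕ) : Continuous (QQ g s u) := by
  induction s generalizing u with
  | zero =>
    have : QQ g 0 u = fun x => ‖T g (Sh n u (u + 1)) x‖ ^ 2 := rfl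
    rw [this]
    exact (T_continuous g hgc _ hg.integrableOn).norm.pow 2
  | succ s ih =>
    have : QQ g (s+1) u = fun x => ‖T g (Sh n u (u + 2 ^ (s+1))) x‖ ^ 2 +
      (QQ g s u x + QQ g s (u + 2 ^ s) x) := rfl
    rw [this]
    exact ((T_continuous g hgc _ hg.integrableOn).norm.pow 2).add ((ih u).add (ih _))

lemma QQ_lint (hgc : Continuous g) (hg : Integrable g) (s u : ℕ) :
    ∫⁻ x in Metric.closedBall (0 : EuclideanSpace ℝ (Fin n)) 1, ENNReal.ofReal (QQ g s u x) ≤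
      ((s:ℝ≥0∞) + 1) * (K1 n * ∫⁻ ξ in Sh n u (u + 2 ^ s), ‖g ξ‖ₑ ^ 2) := by
  induction s generalizing u with
  | zero =>
    simp only [QQ, Nat.cast_zero, zero_add, one_mul, pow_zero]
    have : ∀ x, ENNReal.ofReal (‖T g (Sh n u (u + 1)) x‖ ^ 2) = ‖T g (Sh n u (u + 1)) x‖ₑ ^ 2 := by
      intro x; rw [ENNReal.ofReal_pow (norm_nonneg _), ofReal_norm]
    simp_rw [this]
    exact full_bound g hgc hg _
  | succ s ih =>
    have e : ∀ x, ENNReal.ofReal (QQ g (s+1) u x) = ‖T g (Sh n u (u + 2 ^ (s+1))) x‖ₑ ^ 2 +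
        (ENNReal.ofReal (QQ g s u x) + ENNReal.ofReal (QQ g s (u + 2 ^ s) x)) := by
      intro x
      have : QQ g (s+1) u x = ‖T g (Sh n u (u + 2 ^ (s+1))) x‖ ^ 2 +
        (QQ g s u x + QQ g s (u + 2 ^ s) x) := rfl
      rw [this, ENNReal.ofReal_add (by positivity)
        (add_nonneg (QQ_nonneg g s u x) (QQ_nonneg g s _ x)),
        ENNReal.ofReal_add (QQ_nonneg g s u x) (QQ_nonneg g s _ x),
        ENNReal.ofReal_pow (norm_nonneg _), ofReal_norm]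
    simp_rw [e]
    have hm : ∀ u, Measurable fun x => ENNReal.ofReal (QQ g s u x) := fun u =>
      (QQ_continuous g hgc hg s u).measurable.ennreal_ofReal
    have hmT : Measurable fun x => ‖T g (Sh n u (u + 2 ^ (s+1))) x‖ₑ ^ 2 :=
      ((T_continuous g hgc _ hg.integrableOn).measurable.enorm).pow_const 2
    rw [lintegral_add_left hmT, lintegral_add_left (hm u)]
    have h1 := full_bound g hgc hg (Sh n u (u + 2 ^ (s+1)))
    have h2 := ih u
    have h3 := ih (u + 2 ^ s)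
    have hsplit : (∫⁻ ξ in Sh n u (u + 2 ^ (s+1)), ‖g ξ‖ₑ ^ 2) =
        (∫⁻ ξ in Sh n u (u + 2 ^ s), ‖g ξ‖ₑ ^ 2) +
        (∫⁻ ξ in Sh n ((u + 2 ^ s : ℕ) : ℝ) (((u + 2 ^ s : ℕ) : ℝ) + 2 ^ s), ‖g ξ‖ₑ ^ 2) := by
      have h0 : (0:ℝ) ≤ 2 ^ s := by positivity
      have e1 : ((u + 2 ^ s : ℕ) : ℝ) = (u:ℝ) + 2 ^ s := by push_cast; ring
      have e2 : (u:ℝ) + 2 ^ (s+1) = (u:ℝ) + 2 ^ s + 2 ^ s := by rw [pow_succ]; ring
      rw [e1, e2, ← lintegral_union (measurableSet_Sh _ _) Sh_disj,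
        Sh_union (by linarith) (by linarith)]
    calc _ ≤ (K1 n * ∫⁻ ξ in Sh n u (u + 2 ^ (s+1)), ‖g ξ‖ₑ ^ 2) +
          ((((s:ℝ≥0∞) + 1) * (K1 n * ∫⁻ ξ in Sh n u (u + 2 ^ s), ‖g ξ‖ₑ ^ 2)) +
          (((s:ℝ≥0∞) + 1) * (K1 n * ∫⁻ ξ in Sh n ((u + 2 ^ s : ℕ) : ℝ)
            (((u + 2 ^ s : ℕ) : ℝ) + 2 ^ s), ‖g ξ‖ₑ ^ 2))) := by
          exact add_le_add h1 (add_le_add h2 h3)
      _ = _ := by
          rw [hsplit]
          push_cast
          ring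

/-- ball partial integral with signs constant on blocks of `2 ^ s` unit shells -/
noncomputable def SB (s : ℕ) (A : Finset ℕ) (R : ℝ) (x : EuclideanSpace ℝ (Fin n)) : ℂ :=
  ∫ ξ in Metric.closedBall (0 : EuclideanSpace ℝ (Fin n)) R,
    sg A ((⌈‖ξ‖⌉₊ - 1) / 2 ^ s) * (g ξ * ee x ξ)

lemma measurable_sgnB (s : ℕ) (A : Finset ℕ) :
    Measurable (fun ξ : EuclideanSpace ℝ (Fin n) => sg A ((⌈‖ξ‖⌉₊ - 1) / 2 ^ s)) := by
  have h1 : Measurable (fun l : ℕ => sg A ((l - 1) / 2 ^ s)) := measurable_from_top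
  have h2 : Measurable (fun ξ : EuclideanSpace ℝ (Fin n) => ⌈‖ξ‖⌉₊) :=
    Nat.measurable_ceil.comp measurable_norm
  exact h1.comp h2

lemma SB_eq [Nontrivial (EuclideanSpace ℝ (Fin n))] (hg : Integrable g)
    (s : ℕ) (A : Finset ℕ) (q i : ℕ) (hi : i < 2 ^ s) (R : ℝ)
    (hR : ((q * 2 ^ s + i : ℕ) : ℝ) ≤ R)
    (hR1 : R ≤ ((q * 2 ^ s + i : ℕ) : ℝ) + 1) (x : EuclideanSpace ℝ (Fin n)) :
    SB g s A R x = SS (fun p : ℕ => T g (Sh n ((p * 2 ^ s : ℕ) : ℝ) (((p + 1) * 2 ^ s : ℕ) : ℝ)) x) A q +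
      sg A q * T g (Sh n ((q * 2 ^ s : ℕ) : ℝ) (((q * 2 ^ s : ℕ) : ℝ) + i)) x +
      sg A q * T g (Sh n ((q * 2 ^ s + i : ℕ) : ℝ) R) x := by
  have hint : Integrable (fun ξ => g ξ * ee x ξ) := by
    refine hg.mul_bdd (c := 1) ?_ (Eventually.of_forall fun ξ => (norm_ee x ξ).le)
    exact (continuous_ee.comp (by fun_prop : Continuous (fun ξ => (x, ξ)))).aestronglyMeasurable
  have hint2 : Integrable (fun ξ => sg A ((⌈‖ξ‖⌉₊ - 1) / 2 ^ s) * (g ξ * ee x ξ)) := by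
    refine hint.bdd_mul (c := 1) (measurable_sgnB s A).aestronglyMeasurable
      (Eventually.of_forall fun ξ => (norm_sg A _).le)
  have hconst : ∀ (p : ℕ) (a b : ℝ), ((p * 2 ^ s : ℕ) : ℝ) ≤ a → b ≤ (((p + 1) * 2 ^ s : ℕ) : ℝ) →
      ∫ ξ in Sh n a b, sg A ((⌈‖ξ‖⌉₊ - 1) / 2 ^ s) * (g ξ * ee x ξ) = sg A p * T g (Sh n a b) x := by
    intro p a b ha hb
    unfold T
    rw [← integral_const_mul]
    refine setIntegral_congr_fun (measurableSet_Sh _ _) fun ξ hξ => ?_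
    have h1 : p * 2 ^ s < ⌈‖ξ‖⌉₊ := Nat.lt_ceil.2 (ha.trans_lt hξ.1)
    have h2 : ⌈‖ξ‖⌉₊ ≤ (p + 1) * 2 ^ s := Nat.ceil_le.2 (hξ.2.trans hb)
    have h3 : (⌈‖ξ‖⌉₊ - 1) / 2 ^ s = p := by
      apply Nat.div_eq_of_lt_le <;> omega
    simp only [h3]
  have hq0 : (0:ℝ) ≤ ((q * 2 ^ s : ℕ) : ℝ) := Nat.cast_nonneg _
  have hqi : ((q * 2 ^ s : ℕ) : ℝ) ≤ ((q * 2 ^ s + i : ℕ) : ℝ) := by exact_mod_cast Nat.le_add_right _ _
  unfold SB
  rw [setIntegral_congr_set (ball_eq R (hq0.trans (hqi.trans hR))),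
    ← Sh_union (hq0.trans hqi) hR,
    setIntegral_union Sh_disj (measurableSet_Sh _ _) hint2.integrableOn hint2.integrableOn,
    ← Sh_union hq0 hqi,
    setIntegral_union Sh_disj (measurableSet_Sh _ _) hint2.integrableOn hint2.integrableOn]
  have hlast : (((q * 2 ^ s + i : ℕ) : ℝ)) + 1 ≤ (((q + 1) * 2 ^ s : ℕ) : ℝ) := by
    have : q * 2 ^ s + i + 1 ≤ (q + 1) * 2 ^ s := by rw [add_mul, one_mul]; omega
    exact_mod_cast this
  congr 1
  congr 1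
  · have hr : Monotone (fun j : ℕ => ((j * 2 ^ s : ℕ) : ℝ)) := by
      intro a b hab
      have : a * 2 ^ s ≤ b * 2 ^ s := Nat.mul_le_mul_right _ hab
      beta_reduce
      exact_mod_cast this
    have := tele_int (fun ξ => sg A ((⌈‖ξ‖⌉₊ - 1) / 2 ^ s) * (g ξ * ee x ξ)) hint2
      (fun j : ℕ => ((j * 2 ^ s : ℕ) : ℝ)) hr q
    simp only [zero_mul, Nat.cast_zero] at this
    rw [← this]
    unfold SS
    refine Finset.sum_congr rfl fun p _ => ?_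
    exact hconst p _ _ le_rfl le_rfl
  · rw [hconst q _ _ le_rfl (by linarith)]
    congr 3
    push_cast
    ring
  · exact hconst q _ _ hqi (by linarith)

end Pool.Agent.R681.BM
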