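import Pool.Agent.R681.BM.G

/-!
# The block version: unit scale and scaling
-/

namespace Pool.Agent.R681.BM

open MeasureTheory Real Filter
open scoped ENNReal InnerProductSpace Pointwise Topology

variable {n : ℕ} (g : EuclideanSpace ℝ (Fin n) → ℂ)

/-- the piece of the block `p` -/
noncomputable def cB (s : ℕ) (x : EuclideanSpace ℝ (Fin n)) (p : ℕ) : ℂ :=
  T g (Sh n ((p * 2 ^ s : ℕ) : ℝ) (((p + 1) * 2 ^ s : ℕ) : ℝ)) x

lemma MM_cB_continuous (hgc : Continuous g) (hg : Integrable g) (s : ℕ) (A : Finset ℕ) (N : ℕ) :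
    Continuous fun x => MM (cB g s x) A N := by
  induction N with
  | zero => simp only [MM]; exact continuous_const
  | succ N ih =>
    simp only [MM]
    refine ih.max ?_
    unfold SS
    exact (continuous_finsetSum _ fun l _ =>
      continuous_const.mul (T_continuous g hgc _ hg.integrableOn)).norm

lemma sup_leB [Nontrivial (EuclideanSpace ℝ (Fin n))] (hgc : Continuous g) (hg : Integrable g)
    (s : ℕ) (A : Finset ℕ) (M : ℕ) (x : EuclideanSpace ℝ (Fin n)) :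
    ⨆ R ∈ Set.Ioc (0:ℝ) ((M * 2 ^ s : ℕ) : ℝ), ‖SB g s A R x‖ₑ ^ 2 ≤
      3 * ENNReal.ofReal (MM (cB g s x) A M ^ 2) +
      3 * (((s:ℝ≥0∞) + 1) * ∑ q ∈ Finset.range M, ENNReal.ofReal (QQ g s (q * 2 ^ s) x)) +
      3 * ∑ k ∈ Finset.range (M * 2 ^ s), LL g k x := by
  refine iSup₂_le fun R hR => ?_
  set k := ⌈R⌉₊ - 1 with hk
  have hc1 : 1 ≤ ⌈R⌉₊ := Nat.one_le_iff_ne_zero.2 (Nat.ceil_pos.2 hR.1).ne'
  have hkc : ((k + 1 : ℕ) : ℝ) = ⌈R⌉₊ := by rw [hk]; congr 1; omega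
  have hkR : (k:ℝ) < R := by
    have := Nat.ceil_lt_add_one hR.1.le
    push_cast at hkc
    linarith
  have hRk : R ≤ k + 1 := by
    have := Nat.le_ceil R
    push_cast at hkc
    linarith
  have hkN : k < M * 2 ^ s := by
    have : ⌈R⌉₊ ≤ M * 2 ^ s := Nat.ceil_le.2 hR.2
    omega
  have h2s : 0 < 2 ^ s := by positivity
  have hkq : (k / 2 ^ s) * 2 ^ s + k % 2 ^ s = k := Nat.div_add_mod' k (2 ^ s)
  have him : k % 2 ^ s < 2 ^ s := Nat.mod_lt _ h2s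
  have hqM : k / 2 ^ s < M := Nat.div_lt_of_lt_mul (by rw [mul_comm]; exact hkN)
  obtain ⟨q, hq⟩ : ∃ q, q = k / 2 ^ s := ⟨_, rfl⟩
  obtain ⟨i, hi⟩ : ∃ i, i = k % 2 ^ s := ⟨_, rfl⟩
  rw [← hq, ← hi] at hkq
  rw [← hi] at him
  rw [← hq] at hqM
  have hSB := SB_eq g hg s A q i him R (by rw [hkq]; exact hkR.le) (by rw [hkq]; exact hRk) x
  rw [hkq] at hSB
  set P := T g (Sh n ((q * 2 ^ s : ℕ) : ℝ) (((q * 2 ^ s : ℕ) : ℝ) + i)) x with hP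
  set L := T g (Sh n k R) x with hL
  set S := SB g s A R x with hS
  have hM := MM_nonneg (cB g s x) A M
  have hQ := QQ_nonneg g s (q * 2 ^ s) x
  have h1 : ‖S‖ ≤ MM (cB g s x) A M + ‖P‖ + ‖L‖ := by
    rw [hSB]
    refine (norm_add₃_le).trans ?_
    rw [norm_mul, norm_mul, norm_sg, one_mul, one_mul]
    gcongr
    exact (norm_le_MM (cB g s x) A q).trans (MM_mono _ A hqM.le)
  have hPq : ‖P‖ ^ 2 ≤ (s + 1) * QQ g s (q * 2 ^ s) x := partial_le g hg s (q * 2 ^ s) i him.le x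
  have h2 : ‖S‖ ^ 2 ≤ 3 * MM (cB g s x) A M ^ 2 + 3 * ((s + 1) * QQ g s (q * 2 ^ s) x) +
      3 * ‖L‖ ^ 2 := by
    have h3 := norm_nonneg S
    have h4 := norm_nonneg L
    have h5 := norm_nonneg P
    have h6 : ‖S‖ ^ 2 ≤ (MM (cB g s x) A M + ‖P‖ + ‖L‖) ^ 2 := pow_le_pow_left₀ h3 h1 2
    nlinarith [sq_nonneg (MM (cB g s x) A M - ‖P‖), sq_nonneg (‖P‖ - ‖L‖),
      sq_nonneg (MM (cB g s x) A M - ‖L‖)]
  have hs0 : (0:ℝ) ≤ (s:ℝ) + 1 := by positivity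
  rw [← ofReal_norm, ← ENNReal.ofReal_pow (norm_nonneg _)]
  refine (ENNReal.ofReal_le_ofReal h2).trans ?_
  rw [ENNReal.ofReal_add (by positivity) (by positivity),
    ENNReal.ofReal_add (by positivity) (by positivity),
    ENNReal.ofReal_mul (p := 3) (q := MM (cB g s x) A M ^ 2) (by norm_num),
    ENNReal.ofReal_mul (p := 3) (q := (s + 1) * QQ g s (q * 2 ^ s) x) (by norm_num),
    ENNReal.ofReal_mul (p := 3) (q := ‖L‖ ^ 2) (by norm_num),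
    ENNReal.ofReal_mul (p := (s:ℝ) + 1) hs0]
  have e3 : ENNReal.ofReal 3 = 3 := by simp
  have es : ENNReal.ofReal ((s:ℝ) + 1) = (s:ℝ≥0∞) + 1 := by
    rw [ENNReal.ofReal_add (by positivity) (by positivity), ENNReal.ofReal_natCast,
      ENNReal.ofReal_one]
  rw [e3, es]
  gcongr
  · exact Finset.single_le_sum (f := fun q => ENNReal.ofReal (QQ g s (q * 2 ^ s) x))
      (fun _ _ => zero_le) (Finset.mem_range.2 hqM)
  · rw [ENNReal.ofReal_pow (norm_nonneg _), ofReal_norm]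
    refine (T_le_LL g hgc hg k R hkR hRk x).trans ?_
    exact Finset.single_le_sum (f := fun k => LL g k x) (fun _ _ => zero_le)
      (Finset.mem_range.2 hkN)

/-- the constant -/
noncomputable def CB (n : ℕ) : ℝ≥0∞ := K1 n * (15 + 3 * ENNReal.ofReal (Ck n))

lemma CB_ne_top : CB n ≠ ∞ := by
  unfold CB
  exact ENNReal.mul_ne_top K1_ne_top (ENNReal.add_ne_top.2 ⟨by simp,
    ENNReal.mul_ne_top (by simp) ENNReal.ofReal_ne_top⟩)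

lemma sum_blocks (s M : ℕ) : ∑ q ∈ Finset.range M,
    ∫⁻ ξ in Sh n ((q * 2 ^ s : ℕ) : ℝ) (((q + 1) * 2 ^ s : ℕ) : ℝ), ‖g ξ‖ₑ ^ 2 ≤
    ∫⁻ ξ, ‖g ξ‖ₑ ^ 2 := by
  have hr : Monotone (fun j : ℕ => ((j * 2 ^ s : ℕ) : ℝ)) := by
    intro a b hab
    have : a * 2 ^ s ≤ b * 2 ^ s := Nat.mul_le_mul_right _ hab
    beta_reduce
    exact_mod_cast this
  have := tele_lint (fun ξ => ‖g ξ‖ₑ ^ 2) (fun j : ℕ => ((j * 2 ^ s : ℕ) : ℝ)) hr M
  rw [this]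
  exact setLIntegral_le_lintegral _ _

/-- **Unit scale theorem, blocks** -/
theorem unit_scaleB [Nontrivial (EuclideanSpace ℝ (Fin n))] (hgc : Continuous g)
    (hg : Integrable g) (s M : ℕ) :
    ∑ A ∈ (Finset.range M).powerset,
      ∫⁻ x in Metric.closedBall (0 : EuclideanSpace ℝ (Fin n)) 1,
        ⨆ R ∈ Set.Ioc (0:ℝ) ((M * 2 ^ s : ℕ) : ℝ), ‖SB g s A R x‖ₑ ^ 2 ≤
      2 ^ M * (CB n * ((s:ℝ≥0∞) + 1) ^ 2 * ∫⁻ ξ, ‖g ξ‖ₑ ^ 2) := by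
  set B := volume.restrict (Metric.closedBall (0 : EuclideanSpace ℝ (Fin n)) 1) with hB
  set G := ∫⁻ ξ, ‖g ξ‖ₑ ^ 2 with hG
  have hMm : ∀ A : Finset ℕ, Measurable fun x => ENNReal.ofReal (MM (cB g s x) A M ^ 2) := fun A =>
    ((MM_cB_continuous g hgc hg s A M).pow 2).measurable.ennreal_ofReal
  have hLm : Measurable fun x => ∑ k ∈ Finset.range (M * 2 ^ s), LL g k x :=
    Finset.measurable_sum _ fun k _ => LL_measurable g hgc hg k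
  have hQm1 : ∀ q : ℕ, Measurable fun x => ENNReal.ofReal (QQ g s (q * 2 ^ s) x) := fun q =>
    (QQ_continuous g hgc hg s _).measurable.ennreal_ofReal
  have hQm : Measurable fun x => ∑ q ∈ Finset.range M, ENNReal.ofReal (QQ g s (q * 2 ^ s) x) :=
    Finset.measurable_sum _ fun q _ => hQm1 q
  set X : Finset ℕ → ℝ≥0∞ := fun A => ∫⁻ x, ENNReal.ofReal (MM (cB g s x) A M ^ 2) ∂B with hX
  set Y : ℝ≥0∞ := ∫⁻ x, ∑ q ∈ Finset.range M, ENNReal.ofReal (QQ g s (q * 2 ^ s) x) ∂B with hY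
  set Z : ℝ≥0∞ := ∫⁻ x, ∑ k ∈ Finset.range (M * 2 ^ s), LL g k x ∂B with hZ
  have h1 : ∀ A ∈ (Finset.range M).powerset,
      ∫⁻ x, ⨆ R ∈ Set.Ioc (0:ℝ) ((M * 2 ^ s : ℕ) : ℝ), ‖SB g s A R x‖ₑ ^ 2 ∂B ≤
      3 * X A + 3 * (((s:ℝ≥0∞) + 1) * Y) + 3 * Z := by
    intro A _
    rw [hX, hY, hZ]
    beta_reduce
    have hm3 : Measurable fun x => 3 * ENNReal.ofReal (MM (cB g s x) A M ^ 2) +
        3 * (((s:ℝ≥0∞) + 1) * ∑ q ∈ Finset.range M, ENNReal.ofReal (QQ g s (q * 2 ^ s) x)) :=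
      ((hMm A).const_mul 3).add ((hQm.const_mul _).const_mul 3)
    rw [← lintegral_const_mul _ (hMm A), ← lintegral_const_mul _ hLm,
      ← lintegral_const_mul _ hQm, ← lintegral_const_mul _ (hQm.const_mul _),
      ← lintegral_add_left ((hMm A).const_mul 3),
      ← lintegral_add_left hm3]
    exact lintegral_mono fun x => sup_leB g hgc hg s A M x
  have h2 : Z ≤ K1 n * ENNReal.ofReal (Ck n) * G := by
    rw [hZ, lintegral_finsetSum _ fun k _ => LL_measurable g hgc hg k]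
    calc ∑ k ∈ Finset.range (M * 2 ^ s), ∫⁻ x, LL g k x ∂B
        ≤ ∑ k ∈ Finset.range (M * 2 ^ s), K1 n * ENNReal.ofReal (Ck n) *
          ∫⁻ ξ in Sh n k (k + 1), ‖g ξ‖ₑ ^ 2 :=
          Finset.sum_le_sum fun k _ => LL_lint g hgc hg k
      _ = K1 n * ENNReal.ofReal (Ck n) *
          ∑ k ∈ Finset.range (M * 2 ^ s), ∫⁻ ξ in Sh n k (k + 1), ‖g ξ‖ₑ ^ 2 := by
            rw [Finset.mul_sum]
      _ ≤ _ := by gcongr; exact sum_shells g _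
  have h2' : Y ≤ ((s:ℝ≥0∞) + 1) * (K1 n * G) := by
    rw [hY, lintegral_finsetSum _ fun q _ => hQm1 q]
    calc ∑ q ∈ Finset.range M, ∫⁻ x, ENNReal.ofReal (QQ g s (q * 2 ^ s) x) ∂B
        ≤ ∑ q ∈ Finset.range M, ((s:ℝ≥0∞) + 1) * (K1 n *
          ∫⁻ ξ in Sh n ((q * 2 ^ s : ℕ) : ℝ) (((q + 1) * 2 ^ s : ℕ) : ℝ), ‖g ξ‖ₑ ^ 2) := by
          refine Finset.sum_le_sum fun q _ => ?_
          have := QQ_lint g hgc hg s (q * 2 ^ s)
          have e : ((q * 2 ^ s : ℕ) : ℝ) + 2 ^ s = (((q + 1) * 2 ^ s : ℕ) : ℝ) := by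
            push_cast; ring
          rw [e] at this
          exact this
      _ = ((s:ℝ≥0∞) + 1) * (K1 n * ∑ q ∈ Finset.range M,
          ∫⁻ ξ in Sh n ((q * 2 ^ s : ℕ) : ℝ) (((q + 1) * 2 ^ s : ℕ) : ℝ), ‖g ξ‖ₑ ^ 2) := by
          rw [Finset.mul_sum, Finset.mul_sum]
      _ ≤ _ := by gcongr; exact sum_blocks g s M
  have h3 : ∑ A ∈ (Finset.range M).powerset, X A ≤ 2 ^ M * (4 * (K1 n * G)) := by
    rw [hX]
    beta_reduce
    rw [← lintegral_finsetSum _ fun A _ => hMm A]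
    have hpt : ∀ x, ∑ A ∈ (Finset.range M).powerset, ENNReal.ofReal (MM (cB g s x) A M ^ 2) ≤
        2 ^ M * (4 * ∑ l ∈ Finset.range M, ‖cB g s x l‖ₑ ^ 2) := by
      intro x
      rw [← ENNReal.ofReal_sum_of_nonneg (fun A _ => by positivity)]
      refine (ENNReal.ofReal_le_ofReal (max_sum (cB g s x) M)).trans (le_of_eq ?_)
      rw [ENNReal.ofReal_mul (by norm_num), ENNReal.ofReal_mul (by positivity),
        ENNReal.ofReal_sum_of_nonneg (fun l _ => by positivity),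
        ENNReal.ofReal_pow (by norm_num)]
      have e4 : ENNReal.ofReal 4 = 4 := by simp
      have e2 : ENNReal.ofReal 2 = 2 := by simp
      rw [e4, e2]
      have : ∀ l, ENNReal.ofReal (‖cB g s x l‖ ^ 2) = ‖cB g s x l‖ₑ ^ 2 := by
        intro l
        rw [ENNReal.ofReal_pow (norm_nonneg _), ofReal_norm]
      simp_rw [this]
      ring
    refine (lintegral_mono hpt).trans ?_
    have hms : ∀ l : ℕ, Measurable fun x => ‖cB g s x l‖ₑ ^ 2 := fun l =>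
      ((T_continuous g hgc _ hg.integrableOn).measurable.enorm).pow_const 2
    rw [lintegral_const_mul _ ((Finset.measurable_sum _ fun l _ => hms l).const_mul 4),
      lintegral_const_mul _ (Finset.measurable_sum _ fun l _ => hms l),
      lintegral_finsetSum _ fun l _ => hms l]
    gcongr
    calc ∑ l ∈ Finset.range M, ∫⁻ x, ‖cB g s x l‖ₑ ^ 2 ∂B
        ≤ ∑ l ∈ Finset.range M, K1 n *
          ∫⁻ ξ in Sh n ((l * 2 ^ s : ℕ) : ℝ) (((l + 1) * 2 ^ s : ℕ) : ℝ), ‖g ξ‖ₑ ^ 2 :=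
          Finset.sum_le_sum fun l _ => full_bound g hgc hg _
      _ = K1 n * ∑ l ∈ Finset.range M,
          ∫⁻ ξ in Sh n ((l * 2 ^ s : ℕ) : ℝ) (((l + 1) * 2 ^ s : ℕ) : ℝ), ‖g ξ‖ₑ ^ 2 := by
          rw [Finset.mul_sum]
      _ ≤ _ := by gcongr; exact sum_blocks g s M
  have hs1 : (1:ℝ≥0∞) ≤ ((s:ℝ≥0∞) + 1) ^ 2 := one_le_pow₀ (by simp)
  calc ∑ A ∈ (Finset.range M).powerset,
        ∫⁻ x, ⨆ R ∈ Set.Ioc (0:ℝ) ((M * 2 ^ s : ℕ) : ℝ), ‖SB g s A R x‖ₑ ^ 2 ∂B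
      ≤ ∑ A ∈ (Finset.range M).powerset, (3 * X A + 3 * (((s:ℝ≥0∞) + 1) * Y) + 3 * Z) :=
        Finset.sum_le_sum h1
    _ = 3 * ∑ A ∈ (Finset.range M).powerset, X A +
        2 ^ M * (3 * (((s:ℝ≥0∞) + 1) * Y) + 3 * Z) := by
        rw [Finset.sum_add_distrib, Finset.sum_add_distrib, ← Finset.mul_sum, Finset.sum_const,
          Finset.sum_const, Finset.card_powerset, Finset.card_range, nsmul_eq_mul, nsmul_eq_mul]
        push_cast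
        ring
    _ ≤ 3 * (2 ^ M * (4 * (K1 n * G))) +
        2 ^ M * (3 * (((s:ℝ≥0∞) + 1) * (((s:ℝ≥0∞) + 1) * (K1 n * G))) +
          3 * (K1 n * ENNReal.ofReal (Ck n) * G)) := by
        gcongr
    _ = 2 ^ M * (K1 n * G * (12 * 1 + 3 * ((s:ℝ≥0∞) + 1) ^ 2 + 3 * ENNReal.ofReal (Ck n) * 1)) := by
        ring
    _ ≤ 2 ^ M * (K1 n * G * (12 * ((s:ℝ≥0∞) + 1) ^ 2 + 3 * ((s:ℝ≥0∞) + 1) ^ 2 +
          3 * ENNReal.ofReal (Ck n) * ((s:ℝ≥0∞) + 1) ^ 2)) := by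
        gcongr
    _ = 2 ^ M * (CB n * ((s:ℝ≥0∞) + 1) ^ 2 * G) := by
        unfold CB
        ring

/-- ball partial integral with signs constant on blocks of `2 ^ s` shells of width `1/ρ` -/
noncomputable def RB (g : EuclideanSpace ℝ (Fin n) → ℂ) (ρ : ℝ) (s : ℕ) (A : Finset ℕ) (R : ℝ)
    (x : EuclideanSpace ℝ (Fin n)) : ℂ :=
  ∫ ξ in Metric.closedBall (0 : EuclideanSpace ℝ (Fin n)) R,
    sg A ((⌈ρ * ‖ξ‖⌉₊ - 1) / 2 ^ s) * (g ξ * ee x ξ)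

lemma RB_scale (g : EuclideanSpace ℝ (Fin n) → ℂ) {ρ : ℝ} (hρ : 0 < ρ) (s : ℕ) (A : Finset ℕ)
    (R : ℝ) (x : EuclideanSpace ℝ (Fin n)) :
    RB g ρ s A R (ρ • x) = ((ρ ^ n)⁻¹ : ℝ) • SB (fun η => g (ρ⁻¹ • η)) s A (ρ * R) x := by
  unfold RB SB
  have h := Measure.setIntegral_comp_smul_of_pos (volume : Measure (EuclideanSpace ℝ (Fin n)))
    (fun η => sg A ((⌈‖η‖⌉₊ - 1) / 2 ^ s) * (g (ρ⁻¹ • η) * ee x η))
    (Metric.closedBall (0 : EuclideanSpace ℝ (Fin n)) R) hρ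
  rw [finrank_euclideanSpace_fin] at h
  have hset : ρ • Metric.closedBall (0 : EuclideanSpace ℝ (Fin n)) R =
      Metric.closedBall (0 : EuclideanSpace ℝ (Fin n)) (ρ * R) := by
    ext ξ
    rw [Set.mem_smul_set_iff_inv_smul_mem₀ hρ.ne', ← smul_ball hρ, smul_inv_smul₀ hρ.ne']
  rw [hset] at h
  rw [← h]
  refine setIntegral_congr_fun measurableSet_closedBall fun ξ _ => ?_
  beta_reduce
  rw [inv_smul_smul₀ hρ.ne', norm_smul, Real.norm_of_nonneg hρ.le]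
  congr 2
  unfold ee
  rw [real_inner_smul_left, real_inner_smul_right]

theorem scaledB [Nontrivial (EuclideanSpace ℝ (Fin n))] (g : EuclideanSpace ℝ (Fin n) → ℂ)
    (hgc : Continuous g) (hg : Integrable g) {ρ : ℝ} (hρ : 0 < ρ) (s M : ℕ) :
    ∑ A ∈ (Finset.range M).powerset,
      ∫⁻ x in Metric.closedBall (0 : EuclideanSpace ℝ (Fin n)) ρ,
        ⨆ R ∈ Set.Ioc (0:ℝ) ((M * 2 ^ s : ℕ) / ρ), ‖RB g ρ s A R x‖ₑ ^ 2 ≤
      2 ^ M * (CB n * ((s:ℝ≥0∞) + 1) ^ 2 * ∫⁻ ξ, ‖g ξ‖ₑ ^ 2) := by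
  set g' : EuclideanSpace ℝ (Fin n) → ℂ := fun η => g (ρ⁻¹ • η) with hg'
  have hgc' : Continuous g' := hgc.comp (continuous_const_smul _)
  have hgi' : Integrable g' := hg.comp_smul (inv_pos.2 hρ).ne'
  have hun := unit_scaleB g' hgc' hgi' s M
  have hρn : 0 < ρ ^ n := by positivity
  -- the integral of `g'`
  have hg2 : ∫⁻ ξ, ‖g' ξ‖ₑ ^ 2 = ENNReal.ofReal (ρ ^ n) * ∫⁻ ξ, ‖g ξ‖ₑ ^ 2 := by
    rw [lint_smul hρ (fun ξ => ‖g' ξ‖ₑ ^ 2)]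
    simp only [hg']
    simp_rw [inv_smul_smul₀ hρ.ne']
  have hterm : ∀ A ∈ (Finset.range M).powerset,
      ∫⁻ x in Metric.closedBall (0 : EuclideanSpace ℝ (Fin n)) ρ,
        ⨆ R ∈ Set.Ioc (0:ℝ) ((M * 2 ^ s : ℕ) / ρ), ‖RB g ρ s A R x‖ₑ ^ 2 ≤
      ENNReal.ofReal (ρ ^ n)⁻¹ * ∫⁻ x in Metric.closedBall (0 : EuclideanSpace ℝ (Fin n)) 1,
        ⨆ R ∈ Set.Ioc (0:ℝ) ((M * 2 ^ s : ℕ) : ℝ), ‖SB g' s A R x‖ₑ ^ 2 := by
    intro A _
    have h1 := lint_ball_smul hρ 1 (fun x : EuclideanSpace ℝ (Fin n) =>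
      ⨆ R ∈ Set.Ioc (0:ℝ) ((M * 2 ^ s : ℕ) / ρ), ‖RB g ρ s A R x‖ₑ ^ 2)
    rw [mul_one] at h1
    rw [h1]
    have hpt : ∀ x : EuclideanSpace ℝ (Fin n),
        ⨆ R ∈ Set.Ioc (0:ℝ) ((M * 2 ^ s : ℕ) / ρ), ‖RB g ρ s A R (ρ • x)‖ₑ ^ 2 ≤
        ENNReal.ofReal (((ρ ^ n)⁻¹) ^ 2) *
          ⨆ R ∈ Set.Ioc (0:ℝ) ((M * 2 ^ s : ℕ) : ℝ), ‖SB g' s A R x‖ₑ ^ 2 := by
      intro x
      refine iSup₂_le fun R hR => ?_
      rw [RB_scale g hρ, enorm_smul, mul_pow]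
      have e1 : ‖((ρ ^ n)⁻¹ : ℝ)‖ₑ ^ 2 = ENNReal.ofReal (((ρ ^ n)⁻¹) ^ 2) := by
        rw [Real.enorm_eq_ofReal (by positivity), ENNReal.ofReal_pow (by positivity)]
      rw [e1]
      gcongr
      refine le_iSup₂_of_le (ρ * R) ⟨by have := hR.1; positivity, ?_⟩ le_rfl
      have := hR.2
      rw [le_div_iff₀ hρ] at this
      linarith
    calc ENNReal.ofReal (ρ ^ n) * ∫⁻ x in Metric.closedBall (0 : EuclideanSpace ℝ (Fin n)) 1,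
          ⨆ R ∈ Set.Ioc (0:ℝ) ((M * 2 ^ s : ℕ) / ρ), ‖RB g ρ s A R (ρ • x)‖ₑ ^ 2
        ≤ ENNReal.ofReal (ρ ^ n) * ∫⁻ x in Metric.closedBall (0 : EuclideanSpace ℝ (Fin n)) 1,
          ENNReal.ofReal (((ρ ^ n)⁻¹) ^ 2) *
          ⨆ R ∈ Set.Ioc (0:ℝ) ((M * 2 ^ s : ℕ) : ℝ), ‖SB g' s A R x‖ₑ ^ 2 := by
          gcongr with x
          exact hpt x
      _ = _ := by
          rw [lintegral_const_mul' _ _ ENNReal.ofReal_ne_top, ← mul_assoc,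
            ← ENNReal.ofReal_mul hρn.le]
          congr 2
          field_simp
  calc ∑ A ∈ (Finset.range M).powerset,
      ∫⁻ x in Metric.closedBall (0 : EuclideanSpace ℝ (Fin n)) ρ,
        ⨆ R ∈ Set.Ioc (0:ℝ) ((M * 2 ^ s : ℕ) / ρ), ‖RB g ρ s A R x‖ₑ ^ 2
      ≤ ∑ A ∈ (Finset.range M).powerset, ENNReal.ofReal (ρ ^ n)⁻¹ *
        ∫⁻ x in Metric.closedBall (0 : EuclideanSpace ℝ (Fin n)) 1,
          ⨆ R ∈ Set.Ioc (0:ℝ) ((M * 2 ^ s : ℕ) : ℝ), ‖SB g' s A R x‖ₑ ^ 2 :=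
        Finset.sum_le_sum hterm
    _ ≤ ENNReal.ofReal (ρ ^ n)⁻¹ *
        (2 ^ M * (CB n * ((s:ℝ≥0∞) + 1) ^ 2 * ∫⁻ ξ, ‖g' ξ‖ₑ ^ 2)) := by
        rw [← Finset.mul_sum]
        gcongr
    _ = (ENNReal.ofReal (ρ ^ n)⁻¹ * ENNReal.ofReal (ρ ^ n)) *
        (2 ^ M * (CB n * ((s:ℝ≥0∞) + 1) ^ 2 * ∫⁻ ξ, ‖g ξ‖ₑ ^ 2)) := by
        rw [hg2]; ring
    _ = _ := by
        rw [← ENNReal.ofReal_mul (by positivity), inv_mul_cancel₀ hρn.ne', ENNReal.ofReal_one,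
          one_mul]

end Pool.Agent.R681.BM
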